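import Pool.Agent.K4H10.QZ.T3

/-!
# Semisimplicity of a nondegenerate closed family
-/

set_option autoImplicit false
set_option linter.unusedSectionVars false

namespace Pool.Agent.K4H10.QZ

open Matrix Module Pool.Agent.K4H54.PL

noncomputable section

variable {k : Type} [Field k] {ι : Type} [Fintype ι] [DecidableEq ι]
  {R : ∀ a c : ℕ, Matrix (Fin c → ι) (Fin a → ι) k → Prop} {q qi : Matrix ι ι k} {σ : ι → k}

/-- The algebra of the operators of degree `n` in the family. -/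
def AA (h : Rig R q qi σ) (n : ℕ) : Subalgebra k (Matrix (Fin n → ι) (Fin n → ι) k) where
  carrier := {x | R n n x}
  mul_mem' := fun {a b} ha hb => h.clo.comp (F := b) (G := a) hb ha
  add_mem' := fun {a b} ha hb => h.clo.add ha hb
  algebraMap_mem' := fun r => by
    rw [Algebra.algebraMap_eq_smul_one]
    exact h.clo.smul r (h.idn n)

/-- The signs commute with the family. -/
theorem sign_comm (h : Rig R q qi σ) {a c : ℕ} {F : Matrix (Fin c → ι) (Fin a → ι) k}
    (hF : R a c F) : Matrix.diagonal (fun V : Fin c → ι => ∏ i, σ (V i)) * F =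
      F * Matrix.diagonal (fun V : Fin a → ι => ∏ i, σ (V i)) := by
  ext V W
  rw [Matrix.diagonal_mul, Matrix.mul_diagonal]
  by_cases h0 : F V W = 0
  · rw [h0, mul_zero, zero_mul]
  · rw [par_all h hF V W h0, mul_comm]

theorem eq_zero_of_forall (h : Rig R q qi σ) (hnd : Nondeg R) {n m : ℕ}
    {y : Matrix (Fin m → ι) (Fin n → ι) k} (hy : R n m y)
    (h0 : ∀ z : Matrix (Fin n → ι) (Fin m → ι) k, R m n z → z * y = 0) : y = 0 := by
  refine trace_nd h hnd hy fun z hz => ?_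
  rw [h0 z hz, Matrix.mul_zero, Matrix.trace_zero]

theorem ss [CharZero k] (h : Rig R q qi σ) (hnd : Nondeg R) (n : ℕ) :
    IsSemisimpleRing (AA h n) := by
  have hart : IsArtinianRing (AA h n) := IsArtinianRing.of_finite k (AA h n)
  obtain ⟨N, hN⟩ := IsSemiprimaryRing.isNilpotent (R := AA h n)
  rw [IsArtinianRing.isSemisimpleRing_iff_jacobson, Submodule.eq_bot_iff] at *
  intro x hx
  apply Subtype.ext
  refine trace_nd h hnd x.2 fun G hG => ?_
  have h1 : (⟨G, hG⟩ : AA h n) * x ∈ Ring.jacobson (AA h n) := Ideal.mul_mem_left _ _ hx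
  have h2 : ((⟨G, hG⟩ : AA h n) * x) ^ N = 0 := by
    have h3 := Ideal.pow_mem_pow h1 N
    rw [hN] at h3
    exact h3
  have h3 : (G * (x : Matrix (Fin n → ι) (Fin n → ι) k)) ^ N = 0 := congrArg Subtype.val h2
  have h4 : IsNilpotent (Matrix.diagonal (fun V : Fin n → ι => ∏ i, σ (V i)) *
      (G * (x : Matrix (Fin n → ι) (Fin n → ι) k))) := by
    refine ⟨N, ?_⟩
    have h5 : Commute (Matrix.diagonal (fun V : Fin n → ι => ∏ i, σ (V i)))
        (G * (x : Matrix (Fin n → ι) (Fin n → ι) k)) :=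
      sign_comm h (h.clo.comp x.2 hG)
    rw [h5.mul_pow, h3, mul_zero]
  exact (Matrix.isNilpotent_trace_of_isNilpotent h4).eq_zero

theorem exists_idem [CharZero k] (h : Rig R q qi σ) (hnd : Nondeg R) {n : ℕ} (g : T k ι n) :
    ∃ e : Matrix (Fin n → ι) (Fin n → ι) k, R n n e ∧ e * e = e ∧ e *ᵥ g = g ∧
      ∀ (m : ℕ) (x : Matrix (Fin m → ι) (Fin n → ι) k), R n m x → x *ᵥ g = 0 → x * e = 0 := by
  have hss := ss h hnd n
  let J : Submodule (AA h n) (AA h n) :=
    { carrier := {a | (a : Matrix (Fin n → ι) (Fin n → ι) k) *ᵥ g = 0}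
      add_mem' := by
        intro a b ha hb
        change (a.val + b.val) *ᵥ g = 0
        rw [Matrix.add_mulVec, ha, hb, add_zero]
      zero_mem' := Matrix.zero_mulVec g
      smul_mem' := by
        intro c a ha
        change (c.val * a.val) *ᵥ g = 0
        rw [← Matrix.mulVec_mulVec, ha, Matrix.mulVec_zero] }
  obtain ⟨C, hC⟩ := exists_isCompl J
  obtain ⟨j, hj, c, hc, hjc⟩ := Submodule.mem_sup.1
    (show (1 : AA h n) ∈ J ⊔ C by rw [hC.sup_eq_top]; trivial)
  have hkey : ∀ a ∈ J, a * c = 0 := by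
    intro a ha
    have h1 : a * c ∈ C := C.smul_mem a hc
    have h2 : a * c = a - a * j := by
      have h5 : a * (j + c) = a := by rw [hjc, mul_one]
      rw [mul_add] at h5
      exact eq_sub_of_add_eq' h5
    have h3 : a * c ∈ J := by
      rw [h2]
      exact J.sub_mem ha (J.smul_mem a hj)
    have h4 : a * c ∈ J ⊓ C := ⟨h3, h1⟩
    rw [hC.inf_eq_bot] at h4
    exact h4
  have hc1 : c = 1 - j := eq_sub_of_add_eq' hjc
  refine ⟨(c : Matrix (Fin n → ι) (Fin n → ι) k), c.2, ?_, ?_, ?_⟩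
  · have h1 : c * c = c := by
      have h2 := hkey j hj
      have h3 : (1 - j) * c = c := by rw [sub_mul, one_mul, h2, sub_zero]
      rwa [← hc1] at h3
    exact congrArg Subtype.val h1
  · have h1 : (c : Matrix (Fin n → ι) (Fin n → ι) k) = 1 - (j : Matrix (Fin n → ι) (Fin n → ι) k) :=
      congrArg Subtype.val hc1
    have h2 : (j : Matrix (Fin n → ι) (Fin n → ι) k) *ᵥ g = 0 := hj
    rw [h1, Matrix.sub_mulVec, Matrix.one_mulVec, h2, sub_zero]
  · intro m x hx hxg
    refine eq_zero_of_forall h hnd (h.clo.comp c.2 hx) fun z hz => ?_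
    have h1 : (⟨z * x, h.clo.comp hx hz⟩ : AA h n) ∈ J := by
      change (z * x) *ᵥ g = 0
      rw [← Matrix.mulVec_mulVec, hxg, Matrix.mulVec_zero]
    have h2 := congrArg Subtype.val (hkey _ h1)
    rw [← Matrix.mul_assoc]
    exact h2

theorem exists_compl [CharZero k] (h : Rig R q qi σ) (hnd : Nondeg R) {n : ℕ}
    (S : Submodule k (T k ι n))
    (hS : ∀ x : Matrix (Fin n → ι) (Fin n → ι) k, R n n x → ∀ s ∈ S, x *ᵥ s ∈ S)
    (g : T k ι n) (hg : g ∉ S) :
    ∃ x : Matrix (Fin n → ι) (Fin n → ι) k, R n n x ∧ x *ᵥ g ≠ 0 ∧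
      ∀ y : Matrix (Fin n → ι) (Fin n → ι) k, R n n y → y *ᵥ (x *ᵥ g) ∈ S →
        y *ᵥ (x *ᵥ g) = 0 := by
  have hss := ss h hnd n
  let J : Submodule (AA h n) (AA h n) :=
    { carrier := {a | (a : Matrix (Fin n → ι) (Fin n → ι) k) *ᵥ g ∈ S}
      add_mem' := by
        intro a b ha hb
        change (a.val + b.val) *ᵥ g ∈ S
        rw [Matrix.add_mulVec]
        exact add_mem ha hb
      zero_mem' := by
        change (0 : Matrix (Fin n → ι) (Fin n → ι) k) *ᵥ g ∈ S
        rw [Matrix.zero_mulVec]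
        exact zero_mem S
      smul_mem' := by
        intro c a ha
        change (c.val * a.val) *ᵥ g ∈ S
        rw [← Matrix.mulVec_mulVec]
        exact hS _ c.2 _ ha }
  obtain ⟨C, hC⟩ := exists_isCompl J
  obtain ⟨j, hj, c, hc, hjc⟩ := Submodule.mem_sup.1
    (show (1 : AA h n) ∈ J ⊔ C by rw [hC.sup_eq_top]; trivial)
  have hc1 : c = 1 - j := eq_sub_of_add_eq' hjc
  have hcg : (c : Matrix (Fin n → ι) (Fin n → ι) k) *ᵥ g =
      g - (j : Matrix (Fin n → ι) (Fin n → ι) k) *ᵥ g := by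
    have h1 : (c : Matrix (Fin n → ι) (Fin n → ι) k) = 1 - (j : Matrix (Fin n → ι) (Fin n → ι) k) :=
      congrArg Subtype.val hc1
    rw [h1, Matrix.sub_mulVec, Matrix.one_mulVec]
  have hjS : (j : Matrix (Fin n → ι) (Fin n → ι) k) *ᵥ g ∈ S := hj
  refine ⟨(c : Matrix (Fin n → ι) (Fin n → ι) k), c.2, ?_, ?_⟩
  · intro h0
    rw [h0] at hcg
    have h1 : g = (j : Matrix (Fin n → ι) (Fin n → ι) k) *ᵥ g := (sub_eq_zero.1 hcg.symm)
    rw [h1] at hg
    exact hg hjS
  · intro y hy hyS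
    have h1 : (⟨y, hy⟩ : AA h n) * c ∈ J := by
      change (y * (c : Matrix (Fin n → ι) (Fin n → ι) k)) *ᵥ g ∈ S
      rwa [← Matrix.mulVec_mulVec]
    have h2 : (⟨y, hy⟩ : AA h n) * c ∈ J ⊓ C := ⟨h1, C.smul_mem _ hc⟩
    rw [hC.inf_eq_bot] at h2
    have h3 : (⟨y, hy⟩ : AA h n) * c = 0 := h2
    have h4 : y * (c : Matrix (Fin n → ι) (Fin n → ι) k) = 0 := congrArg Subtype.val h3
    rw [Matrix.mulVec_mulVec, h4, Matrix.zero_mulVec]

end

end Pool.Agent.K4H10.QZ
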