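import Pool.Agent.K4H10.QZ.T3

/-!
# The two ideals of an idempotent have the same dimension
-/

set_option autoImplicit false
set_option linter.unusedSectionVars false

namespace Pool.Agent.K4H10.QZ

open Matrix Module Filter Topology Pool.Agent.K4H54.PL

noncomputable section

variable {k : Type} [Field k] {ι : Type} [Fintype ι] [DecidableEq ι]

/-- the signs as a matrix -/
def SM (σ : ι → k) (a : ℕ) : Matrix (Fin a → ι) (Fin a → ι) k :=
  Matrix.diagonal (fun V : Fin a → ι => ∏ i, σ (V i))

variable {R : ∀ a c : ℕ, Matrix (Fin c → ι) (Fin a → ι) k → Prop} {q qi : Matrix ι ι k} {σ : ι → k}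

theorem SM_comm (h : Rig R q qi σ) {a c : ℕ} {F : Matrix (Fin c → ι) (Fin a → ι) k}
    (hF : R a c F) : SM σ c * F = F * SM σ a := by
  ext V W
  unfold SM
  rw [Matrix.diagonal_mul, Matrix.mul_diagonal]
  by_cases h1 : F V W = 0
  · rw [h1, mul_zero, zero_mul]
  · rw [par_all h hF V W h1, mul_comm]

theorem RE_zero (h : Rig R q qi σ) (hnd : Nondeg R) {n : ℕ}
    {e : Matrix (Fin n → ι) (Fin n → ι) k} (he : R n n e) (hee : e * e = e) (m : ℕ)
    {x : Matrix (Fin m → ι) (Fin n → ι) k} (hx : R n m x) (hxe : x * e = x)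
    (h0 : ∀ y : Matrix (Fin n → ι) (Fin m → ι) k, R m n y → e * y = y →
      trace (SM σ n * (y * x)) = 0) : x = 0 := by
  refine trace_nd h hnd hx fun G hG => ?_
  change trace (SM σ n * (G * x)) = 0
  have h1 : trace (SM σ n * (G * x)) = trace (SM σ n * (e * G * x)) := by
    calc trace (SM σ n * (G * x)) = trace (SM σ n * (G * (x * e))) := by rw [hxe]
      _ = trace ((SM σ n * (G * x)) * e) := by
        rw [Matrix.mul_assoc, Matrix.mul_assoc]
      _ = trace (e * (SM σ n * (G * x))) := Matrix.trace_mul_comm _ _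
      _ = trace (SM σ n * (e * G * x)) := by
        rw [← Matrix.mul_assoc, ← SM_comm h he, Matrix.mul_assoc, Matrix.mul_assoc]
  rw [h1]
  exact h0 (e * G) (h.clo.comp hG he) (by rw [← Matrix.mul_assoc, hee])

theorem LE_zero (h : Rig R q qi σ) (hnd : Nondeg R) {n : ℕ}
    {e : Matrix (Fin n → ι) (Fin n → ι) k} (he : R n n e) (hee : e * e = e) (m : ℕ)
    {y : Matrix (Fin n → ι) (Fin m → ι) k} (hy : R m n y) (hey : e * y = y)
    (h0 : ∀ x : Matrix (Fin m → ι) (Fin n → ι) k, R n m x → x * e = x →
      trace (SM σ n * (y * x)) = 0) : y = 0 := by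
  refine trace_nd h hnd hy fun G hG => ?_
  change trace (SM σ m * (G * y)) = 0
  have h1 : trace (SM σ m * (G * y)) = trace (SM σ n * (y * (G * e))) := by
    calc trace (SM σ m * (G * y)) = trace (SM σ m * (G * (e * y))) := by rw [hey]
      _ = trace ((SM σ m * (G * e)) * y) := by
        rw [Matrix.mul_assoc, Matrix.mul_assoc]
      _ = trace (y * (SM σ m * (G * e))) := Matrix.trace_mul_comm _ _
      _ = trace (SM σ n * (y * (G * e))) := by
        rw [← Matrix.mul_assoc, ← SM_comm h hy, Matrix.mul_assoc]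
  rw [h1]
  exact h0 (G * e) (h.clo.comp he hG) (by rw [Matrix.mul_assoc, hee])

/-- the pairing -/
def pairL (σ : ι → k) (n m : ℕ) : Matrix (Fin m → ι) (Fin n → ι) k →ₗ[k]
    Matrix (Fin n → ι) (Fin m → ι) k →ₗ[k] k :=
  LinearMap.mk₂ k (fun x y => trace (SM σ n * (y * x)))
    (fun x x' y => by rw [Matrix.mul_add, Matrix.mul_add, Matrix.trace_add])
    (fun c x y => by rw [Matrix.mul_smul, Matrix.mul_smul, Matrix.trace_smul])
    (fun x y y' => by rw [Matrix.add_mul, Matrix.mul_add, Matrix.trace_add])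
    (fun c x y => by rw [Matrix.smul_mul, Matrix.mul_smul, Matrix.trace_smul])

theorem finrank_RE (h : Rig R q qi σ) (hnd : Nondeg R) {n : ℕ}
    {e : Matrix (Fin n → ι) (Fin n → ι) k} (he : R n n e) (hee : e * e = e) (m : ℕ) :
    finrank k (RE R h.clo h.zero e m) = finrank k (LE R h.clo h.zero e m) := by
  refine le_antisymm ?_ ?_
  · let f : RE R h.clo h.zero e m →ₗ[k] Module.Dual k (LE R h.clo h.zero e m) :=
      (LinearMap.lcomp k k (LE R h.clo h.zero e m).subtype).comp
        ((pairL σ n m).comp (RE R h.clo h.zero e m).subtype)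
    have hf : Function.Injective f := by
      rw [injective_iff_map_eq_zero]
      rintro ⟨x, hx, hxe⟩ hfx
      refine Subtype.ext (RE_zero h hnd he hee m hx hxe fun y hy hey => ?_)
      exact LinearMap.congr_fun hfx ⟨y, hy, hey⟩
    have h1 := LinearMap.finrank_le_finrank_of_injective hf
    rwa [Subspace.dual_finrank_eq] at h1
  · let f : LE R h.clo h.zero e m →ₗ[k] Module.Dual k (RE R h.clo h.zero e m) :=
      (LinearMap.lcomp k k (RE R h.clo h.zero e m).subtype).comp
        ((pairL σ n m).flip.comp (LE R h.clo h.zero e m).subtype)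
    have hf : Function.Injective f := by
      rw [injective_iff_map_eq_zero]
      rintro ⟨y, hy, hey⟩ hfy
      refine Subtype.ext (LE_zero h hnd he hee m hy hey fun x hx hxe => ?_)
      exact LinearMap.congr_fun hfy ⟨x, hx, hxe⟩
    have h1 := LinearMap.finrank_le_finrank_of_injective hf
    rwa [Subspace.dual_finrank_eq] at h1

end

end Pool.Agent.K4H10.QZ
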