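import Mathlib
import Pool.Agent.K4H54.PL.Planar

/-!
# Quantization of the proportion of a closed family: definitions
-/

set_option autoImplicit false

namespace Pool.Agent.K4H10.QZ

open Matrix Module Pool.Agent.K4H54.PL

noncomputable section

variable {k : Type} [Field k] {ι : Type} [Fintype ι] [DecidableEq ι]

/-- A closed family of correspondences between the tensor powers, which contains a nondegenerate form
`q` and its inverse. The form is symmetric up to the signs `σ`, and the classes are even. -/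
structure Rig (R : ∀ a c : ℕ, Matrix (Fin c → ι) (Fin a → ι) k → Prop) (q qi : Matrix ι ι k)
    (σ : ι → k) : Prop where
  clo : Cl R
  zero : ∀ a c, R a c 0
  idn : ∀ n, R n n 1
  form : R 2 0 (fq q)
  inverse : R 0 2 (fq qi)ᵀ
  inv : q * qi = 1
  sgn : ∀ i, σ i = 1 ∨ σ i = -1
  sym : ∀ i j, q j i = σ i * q i j
  par : ∀ (m : ℕ) (x : T k ι m), R 0 m (cl x) → ∀ V, x V ≠ 0 → ∏ i, σ (V i) = 1

/-- The pairing of the classes and the forms in the family is nondegenerate. -/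
def Nondeg (R : ∀ a c : ℕ, Matrix (Fin c → ι) (Fin a → ι) k → Prop) : Prop :=
  ∀ (m : ℕ) (x : T k ι m), R 0 m (cl x) → (∀ φ : T k ι m, R m 0 (ro φ) → φ ⬝ᵥ x = 0) → x = 0

/-- The letters of a word at the places `a, ..., a + n - 1`. -/
def blk {M n : ℕ} (a : ℕ) (h : a + n ≤ M) (V : Fin M → ι) : Fin n → ι :=
  fun t => V ⟨a + t.val, by have := t.isLt; omega⟩

/-- The operator `1 ⊗ e ⊗ 1` where `e` acts at the places `a, ..., a + n - 1`. -/
def opAt {M n : ℕ} (a : ℕ) (h : a + n ≤ M) (e : Matrix (Fin n → ι) (Fin n → ι) k) :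
    Matrix (Fin M → ι) (Fin M → ι) k :=
  Matrix.of fun V W => if ∀ i : Fin M, (i.val < a ∨ a + n ≤ i.val) → V i = W i then
    e (blk a h V) (blk a h W) else 0

/-- The elements of `B` which are fixed by a matrix. -/
def fixed {J : Type} [Fintype J] (B : Submodule k (J → k)) (P : Matrix J J k) :
    Submodule k (J → k) where
  carrier := {z | z ∈ B ∧ P *ᵥ z = z}
  add_mem' := by
    rintro a b ⟨ha, ha'⟩ ⟨hb, hb'⟩
    exact ⟨add_mem ha hb, by rw [mulVec_add, ha', hb']⟩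
  zero_mem' := ⟨zero_mem _, mulVec_zero _⟩
  smul_mem' := by
    rintro c a ⟨ha, ha'⟩
    exact ⟨Submodule.smul_mem _ c ha, by rw [mulVec_smul, ha']⟩

/-- The elements `x` of the family with `x e = x`. -/
def RE (R : ∀ a c : ℕ, Matrix (Fin c → ι) (Fin a → ι) k → Prop) (hR : Cl R)
    (h0 : ∀ a c, R a c 0) {n : ℕ} (e : Matrix (Fin n → ι) (Fin n → ι) k) (m : ℕ) :
    Submodule k (Matrix (Fin m → ι) (Fin n → ι) k) where
  carrier := {x | R n m x ∧ x * e = x}
  add_mem' := by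
    rintro a b ⟨ha, ha'⟩ ⟨hb, hb'⟩
    exact ⟨hR.add ha hb, by rw [Matrix.add_mul, ha', hb']⟩
  zero_mem' := ⟨h0 _ _, Matrix.zero_mul _⟩
  smul_mem' := by
    rintro c a ⟨ha, ha'⟩
    exact ⟨hR.smul c ha, by rw [Matrix.smul_mul, ha']⟩

/-- The elements `x` of the family with `e x = x`. -/
def LE (R : ∀ a c : ℕ, Matrix (Fin c → ι) (Fin a → ι) k → Prop) (hR : Cl R)
    (h0 : ∀ a c, R a c 0) {n : ℕ} (e : Matrix (Fin n → ι) (Fin n → ι) k) (m : ℕ) :
    Submodule k (Matrix (Fin n → ι) (Fin m → ι) k) where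
  carrier := {x | R m n x ∧ e * x = x}
  add_mem' := by
    rintro a b ⟨ha, ha'⟩ ⟨hb, hb'⟩
    exact ⟨hR.add ha hb, by rw [Matrix.mul_add, ha', hb']⟩
  zero_mem' := ⟨h0 _ _, Matrix.mul_zero _⟩
  smul_mem' := by
    rintro c a ⟨ha, ha'⟩
    exact ⟨hR.smul c ha, by rw [Matrix.mul_smul, ha']⟩

end

end Pool.Agent.K4H10.QZ
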