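import Mathlib
import Pool.Agent.K4H10.QZ.Defs

/-!
# Operators on a block of letters
-/

set_option autoImplicit false
set_option linter.unusedSectionVars false

namespace Pool.Agent.K4H10.QZ

open Matrix Module Pool.Agent.K4H54.PL

noncomputable section

namespace T1

variable {k : Type} [Field k] {ι : Type} [Fintype ι] [DecidableEq ι] {M n : ℕ}

/-- replace the letters of the block -/
def ins (a : ℕ) (V : Fin M → ι) (u : Fin n → ι) : Fin M → ι :=
  fun i => if h : a ≤ i.val ∧ i.val < a + n then u ⟨i.val - a, by omega⟩ else V i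

theorem ins_out (a : ℕ) (V : Fin M → ι) (u : Fin n → ι) (i : Fin M)
    (hi : i.val < a ∨ a + n ≤ i.val) : ins a V u i = V i := by
  unfold ins
  rw [dif_neg]
  omega

theorem ins_in (a : ℕ) (V : Fin M → ι) (u : Fin n → ι) (i : Fin M)
    (hi : a ≤ i.val ∧ i.val < a + n) : ins a V u i = u ⟨i.val - a, by omega⟩ := by
  unfold ins
  rw [dif_pos hi]

theorem blk_ins (a : ℕ) (h : a + n ≤ M) (V : Fin M → ι) (u : Fin n → ι) :
    blk a h (ins a V u) = u := by
  funext t
  have ht := t.isLt
  change ins a V u ⟨a + t.val, _⟩ = u t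
  rw [ins_in a V u _ ⟨by simp, by simp⟩]
  congr 1
  exact Fin.ext (by simp)

theorem blk_val (a : ℕ) (h : a + n ≤ M) (V : Fin M → ι) (i : Fin M)
    (hi : a ≤ i.val ∧ i.val < a + n) : blk a h V ⟨i.val - a, by omega⟩ = V i := by
  unfold blk
  congr 1
  exact Fin.ext (by simp; omega)

theorem ins_blk (a : ℕ) (h : a + n ≤ M) (V W : Fin M → ι)
    (hag : ∀ i : Fin M, (i.val < a ∨ a + n ≤ i.val) → V i = W i) :
    ins a V (blk a h W) = W := by
  funext i
  by_cases hi : a ≤ i.val ∧ i.val < a + n
  · rw [ins_in a V _ i hi, blk_val a h W i hi]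
  · rw [ins_out a V _ i (by omega)]
    exact hag i (by omega)

theorem ins_injective (a : ℕ) (h : a + n ≤ M) (V : Fin M → ι) :
    Function.Injective (ins (n := n) a V) := by
  intro u u' huu
  have := congrArg (blk a h) huu
  rwa [blk_ins, blk_ins] at this

theorem sum_ins {R : Type} [AddCommMonoid R] (a : ℕ) (h : a + n ≤ M) (V : Fin M → ι)
    (f : (Fin M → ι) → R)
    (hf : ∀ U, ¬ (∀ i : Fin M, (i.val < a ∨ a + n ≤ i.val) → V i = U i) → f U = 0) :
    ∑ U, f U = ∑ u : Fin n → ι, f (ins a V u) := by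
  classical
  have h1 : ∑ U ∈ Finset.univ.image (ins (n := n) a V), f U = ∑ U, f U := by
    refine Finset.sum_subset (Finset.subset_univ _) fun U _ hU => hf U fun hag => hU ?_
    exact Finset.mem_image.2 ⟨blk a h U, Finset.mem_univ _, ins_blk a h V U hag⟩
  rw [← h1, Finset.sum_image fun u _ u' _ huu => ins_injective a h V huu]

theorem opAt_apply (a : ℕ) (h : a + n ≤ M) (e : Matrix (Fin n → ι) (Fin n → ι) k)
    (V W : Fin M → ι) : opAt a h e V W =
    if ∀ i : Fin M, (i.val < a ∨ a + n ≤ i.val) → V i = W i then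
      e (blk a h V) (blk a h W) else 0 := rfl

theorem opAt_mul (a : ℕ) (h : a + n ≤ M) (e e' : Matrix (Fin n → ι) (Fin n → ι) k) :
    opAt a h e * opAt a h e' = opAt a h (e * e') := by
  refine Matrix.ext fun V W => ?_
  rw [Matrix.mul_apply, sum_ins a h V, opAt_apply]
  · by_cases hag : ∀ i : Fin M, (i.val < a ∨ a + n ≤ i.val) → V i = W i
    · rw [if_pos hag, Matrix.mul_apply]
      refine Finset.sum_congr rfl fun u _ => ?_
      rw [opAt_apply, opAt_apply, if_pos fun i hi => (ins_out a V u i hi).symm,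
        if_pos fun i hi => (ins_out a V u i hi).trans (hag i hi), blk_ins]
    · rw [if_neg hag]
      refine Finset.sum_eq_zero fun u _ => ?_
      rw [opAt_apply a h e', if_neg, mul_zero]
      intro h1
      exact hag fun i hi => (ins_out a V u i hi).symm.trans (h1 i hi)
  · intro U hU
    rw [opAt_apply, if_neg hU, zero_mul]

theorem opAt_mul_disj (a a' : ℕ) (h : a + n ≤ M) (h' : a' + n ≤ M)
    (hd : a + n ≤ a' ∨ a' + n ≤ a) (e e' : Matrix (Fin n → ι) (Fin n → ι) k)
    (V W : Fin M → ι) : (opAt a h e * opAt a' h' e') V W =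
    if ∀ i : Fin M, (i.val < a ∨ a + n ≤ i.val) → (i.val < a' ∨ a' + n ≤ i.val) → V i = W i then
      e (blk a h V) (blk a h W) * e' (blk a' h' V) (blk a' h' W) else 0 := by
  rw [Matrix.mul_apply, sum_ins a h V]
  · have hb : ∀ u : Fin n → ι, blk a' h' (ins a V u) = blk a' h' V := by
      intro u
      funext t
      have ht := t.isLt
      unfold blk
      rw [ins_out]
      simp only
      omega
    by_cases hC : ∀ i : Fin M, (i.val < a ∨ a + n ≤ i.val) → (i.val < a' ∨ a' + n ≤ i.val) →
        V i = W i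
    · rw [if_pos hC, Finset.sum_eq_single (blk a h W)]
      · rw [opAt_apply, opAt_apply, if_pos fun i hi => (ins_out a V _ i hi).symm, if_pos, blk_ins,
          hb]
        intro i hi
        by_cases hi2 : a ≤ i.val ∧ i.val < a + n
        · rw [ins_in a V _ i hi2, blk_val a h W i hi2]
        · rw [ins_out a V _ i (by omega)]
          exact hC i (by omega) hi
      · intro u _ hu
        rw [opAt_apply a' h' e', if_neg, mul_zero]
        intro h1
        apply hu
        funext t
        have ht := t.isLt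
        have h2 := h1 ⟨a + t.val, by omega⟩ (by simp only; omega)
        rw [ins_in a V u _ ⟨by simp, by simp⟩] at h2
        unfold blk
        rw [← h2]
        congr 1
        exact Fin.ext (by simp)
      · intro h1
        exact absurd (Finset.mem_univ _) h1
    · rw [if_neg hC]
      refine Finset.sum_eq_zero fun u _ => ?_
      rw [opAt_apply a' h' e', if_neg, mul_zero]
      intro h1
      exact hC fun i hi hi' => (ins_out a V u i hi).symm.trans (h1 i hi')
  · intro U hU
    rw [opAt_apply, if_neg hU, zero_mul]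

theorem opAt_comm (a a' : ℕ) (h : a + n ≤ M) (h' : a' + n ≤ M)
    (hd : a + n ≤ a' ∨ a' + n ≤ a) (e e' : Matrix (Fin n → ι) (Fin n → ι) k) :
    opAt a h e * opAt a' h' e' = opAt a' h' e' * opAt a h e := by
  refine Matrix.ext fun V W => ?_
  rw [opAt_mul_disj a a' h h' hd, opAt_mul_disj a' a h' h hd.symm]
  by_cases hC : ∀ i : Fin M, (i.val < a ∨ a + n ≤ i.val) → (i.val < a' ∨ a' + n ≤ i.val) →
      V i = W i
  · rw [if_pos hC, if_pos fun i h1 h2 => hC i h2 h1, mul_comm]
  · rw [if_neg hC, if_neg fun h1 => hC fun i h2 h3 => h1 i h3 h2]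

theorem opAt_diagonal (a : ℕ) (h : a + n ≤ M) (d : (Fin n → ι) → k) :
    opAt a h (Matrix.diagonal d) = Matrix.diagonal fun V => d (blk a h V) := by
  refine Matrix.ext fun V W => ?_
  rw [opAt_apply]
  by_cases hVW : V = W
  · subst hVW
    rw [if_pos fun _ _ => rfl, Matrix.diagonal_apply_eq, Matrix.diagonal_apply_eq]
  · rw [Matrix.diagonal_apply_ne _ hVW]
    by_cases hag : ∀ i : Fin M, (i.val < a ∨ a + n ≤ i.val) → V i = W i
    · rw [if_pos hag, Matrix.diagonal_apply_ne]
      intro hb
      apply hVW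
      rw [← ins_blk a h V W hag, ← hb, ins_blk a h V V fun _ _ => rfl]
    · rw [if_neg hag]

theorem opAt_one (a : ℕ) (h : a + n ≤ M) :
    opAt a h (1 : Matrix (Fin n → ι) (Fin n → ι) k) = 1 := by
  rw [← Matrix.diagonal_one, opAt_diagonal]
  exact Matrix.diagonal_one

/-- An idempotent matrix is similar to a diagonal one. -/
theorem exists_conj {J : Type} [Fintype J] [DecidableEq J] (e : Matrix J J k) (he : e * e = e) :
    ∃ (g gi : Matrix J J k) (J1 : Finset J), g * gi = 1 ∧ gi * g = 1 ∧ J1.card = e.rank ∧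
      g * e = Matrix.diagonal (fun w => if w ∈ J1 then 1 else 0) * g := by
  classical
  have hid : IsIdempotentElem e.mulVecLin := by
    change e.mulVecLin ∘ₗ e.mulVecLin = e.mulVecLin
    rw [← Matrix.mulVecLin_mul, he]
  have hfix : ∀ v ∈ LinearMap.range e.mulVecLin, e *ᵥ v = v := by
    rintro _ ⟨v, rfl⟩
    change e *ᵥ (e *ᵥ v) = e *ᵥ v
    rw [Matrix.mulVec_mulVec, he]
  have hcompl : IsCompl (LinearMap.range e.mulVecLin) (LinearMap.ker e.mulVecLin) := by
    constructor
    · rw [Submodule.disjoint_def]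
      intro v hv hv0
      have h1 := hfix v hv
      rw [LinearMap.mem_ker] at hv0
      change e *ᵥ v = 0 at hv0
      rw [← h1, hv0]
    · rw [codisjoint_iff, eq_top_iff]
      intro v _
      rw [Submodule.mem_sup]
      refine ⟨e *ᵥ v, ⟨v, rfl⟩, v - e *ᵥ v, ?_, by abel⟩
      rw [LinearMap.mem_ker]
      change e *ᵥ (v - e *ᵥ v) = 0
      rw [Matrix.mulVec_sub, Matrix.mulVec_mulVec, he, sub_self]
  let b0 := ((finBasis k (LinearMap.range e.mulVecLin)).prod
    (finBasis k (LinearMap.ker e.mulVecLin))).map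
      (Submodule.prodEquivOfIsCompl _ _ hcompl)
  have hcard : Fintype.card (Fin (finrank k (LinearMap.range e.mulVecLin)) ⊕
      Fin (finrank k (LinearMap.ker e.mulVecLin))) = Fintype.card J := by
    rw [← Module.finrank_eq_card_basis b0, Module.finrank_fintype_fun_eq_card]
  let σ := Fintype.equivOfCardEq hcard
  let b := b0.reindex σ
  have hb1 : ∀ i, e *ᵥ (b (σ (Sum.inl i))) = b (σ (Sum.inl i)) := by
    intro i
    apply hfix
    have : b (σ (Sum.inl i)) = (finBasis k (LinearMap.range e.mulVecLin) i : J → k) := by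
      simp [b, b0, Submodule.prodEquivOfIsCompl]
    rw [this]
    exact Subtype.property _
  have hb0 : ∀ i, e *ᵥ (b (σ (Sum.inr i))) = 0 := by
    intro i
    have : b (σ (Sum.inr i)) = (finBasis k (LinearMap.ker e.mulVecLin) i : J → k) := by
      simp [b, b0, Submodule.prodEquivOfIsCompl]
    rw [this]
    exact LinearMap.mem_ker.1 (Subtype.property (finBasis k (LinearMap.ker e.mulVecLin) i))
  let J1 : Finset J := Finset.univ.image fun i => σ (Sum.inl i)
  have hJ1 : J1.card = e.rank := by
    have hinj : Function.Injective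
        fun i : Fin (finrank k (LinearMap.range e.mulVecLin)) => σ (Sum.inl i) :=
      fun i j h => Sum.inl_injective (σ.injective h)
    change (Finset.univ.image fun i => σ (Sum.inl i)).card = _
    rw [Finset.card_image_of_injective _ hinj, Finset.card_univ, Fintype.card_fin]
    rfl
  have hgi : e * (Pi.basisFun k J).toMatrix b = (Pi.basisFun k J).toMatrix b *
      Matrix.diagonal (fun w => if w ∈ J1 then 1 else 0) := by
    refine Matrix.ext fun u w => ?_
    rw [Matrix.mul_diagonal]
    change (e *ᵥ b w) u = b w u * _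
    obtain ⟨s, rfl⟩ := σ.surjective w
    rcases s with i | i
    · rw [hb1, if_pos (Finset.mem_image.2 ⟨i, Finset.mem_univ _, rfl⟩), mul_one]
    · rw [hb0, if_neg, mul_zero]
      · rfl
      · intro h
        obtain ⟨j, -, hj⟩ := Finset.mem_image.1 h
        exact absurd (σ.injective hj) (by simp)
  refine ⟨b.toMatrix (Pi.basisFun k J), (Pi.basisFun k J).toMatrix b, J1,
    Basis.toMatrix_mul_toMatrix_flip _ _, Basis.toMatrix_mul_toMatrix_flip _ _, hJ1, ?_⟩
  have h1 : b.toMatrix (Pi.basisFun k J) * (Pi.basisFun k J).toMatrix b = 1 :=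
    Basis.toMatrix_mul_toMatrix_flip _ _
  have h2 : (Pi.basisFun k J).toMatrix b * b.toMatrix (Pi.basisFun k J) = 1 :=
    Basis.toMatrix_mul_toMatrix_flip _ _
  calc b.toMatrix (Pi.basisFun k J) * e
      = b.toMatrix (Pi.basisFun k J) * e * ((Pi.basisFun k J).toMatrix b *
          b.toMatrix (Pi.basisFun k J)) := by rw [h2, mul_one]
    _ = b.toMatrix (Pi.basisFun k J) * (e * (Pi.basisFun k J).toMatrix b) *
          b.toMatrix (Pi.basisFun k J) := by simp only [Matrix.mul_assoc]
    _ = (b.toMatrix (Pi.basisFun k J) * (Pi.basisFun k J).toMatrix b) *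
          Matrix.diagonal (fun w => if w ∈ J1 then 1 else 0) * b.toMatrix (Pi.basisFun k J) := by
        rw [hgi]
        simp only [Matrix.mul_assoc]
    _ = _ := by rw [h1, one_mul]

/-- Simultaneous diagonalisation of the block operators. -/
theorem exists_G {g gi e P : Matrix (Fin n → ι) (Fin n → ι) k} (h1 : g * gi = 1)
    (h2 : gi * g = 1) (hg : g * e = P * g) : ∀ l : ℕ, n * l ≤ M →
    ∃ G Gi : Matrix (Fin M → ι) (Fin M → ι) k, G * Gi = 1 ∧ Gi * G = 1 ∧
      (∀ (j : ℕ) (h : n * j + n ≤ M), j < l → G * opAt (n * j) h e = opAt (n * j) h P * G) ∧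
      (∀ (j : ℕ) (h : n * j + n ≤ M), l ≤ j → ∀ y : Matrix (Fin n → ι) (Fin n → ι) k,
        G * opAt (n * j) h y = opAt (n * j) h y * G)
  | 0, _ => ⟨1, 1, one_mul _, one_mul _, fun j h hj => absurd hj (Nat.not_lt_zero j),
      fun j h _ y => by rw [one_mul, mul_one]⟩
  | l + 1, hl => by
    have hl' : n * l + n ≤ M := by
      have : n * (l + 1) = n * l + n := by ring
      omega
    obtain ⟨G, Gi, e1, e2, e3, e4⟩ := exists_G h1 h2 hg l (by omega)
    have hdisj : ∀ j j' : ℕ, j < j' → n * j + n ≤ n * j' := by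
      intro j j' hj
      calc n * j + n = n * (j + 1) := by ring
        _ ≤ n * j' := Nat.mul_le_mul_left n hj
    refine ⟨opAt (n * l) hl' g * G, Gi * opAt (n * l) hl' gi, ?_, ?_, fun j h hj => ?_,
      fun j h hj y => ?_⟩
    · calc opAt (n * l) hl' g * G * (Gi * opAt (n * l) hl' gi)
          = opAt (n * l) hl' g * (G * Gi) * opAt (n * l) hl' gi := by
            simp only [Matrix.mul_assoc]
        _ = 1 := by rw [e1, mul_one, opAt_mul, h1, opAt_one]
    · calc Gi * opAt (n * l) hl' gi * (opAt (n * l) hl' g * G)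
          = Gi * (opAt (n * l) hl' gi * opAt (n * l) hl' g) * G := by
            simp only [Matrix.mul_assoc]
        _ = 1 := by rw [opAt_mul, h2, opAt_one, mul_one, e2]
    · rcases Nat.lt_or_ge j l with hjl | hjl
      · rw [Matrix.mul_assoc, e3 j h hjl, ← Matrix.mul_assoc,
          opAt_comm (n * l) (n * j) hl' h (Or.inr (hdisj j l hjl)), Matrix.mul_assoc]
      · obtain rfl : j = l := by omega
        rw [Matrix.mul_assoc, e4 j h le_rfl, ← Matrix.mul_assoc, opAt_mul, hg, ← opAt_mul,
          Matrix.mul_assoc]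
    · rw [Matrix.mul_assoc, e4 j h (by omega), ← Matrix.mul_assoc,
        opAt_comm (n * l) (n * j) hl' h (Or.inl (hdisj l j hj)), Matrix.mul_assoc]

end T1

end

end Pool.Agent.K4H10.QZ
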