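import Mathlib
import Pool.Agent.K4H10.QZ.Defs
import Pool.Agent.K4H10.QZ.T1a
import Pool.Agent.K4H10.ZO.Lead

/-!
# Leading words for a commuting family of idempotents (task T1)
-/

set_option autoImplicit false
set_option linter.unusedSectionVars false

namespace Pool.Agent.K4H10.QZ

open Matrix Module Filter Topology Pool.Agent.K4H54.PL

noncomputable section

namespace T1

/-- the words of length `M` as `l` blocks of length `n` and the rest -/
def wordEquiv (ι : Type) (M n l r : ℕ) (h : M = l * n + r) :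
    (Fin M → ι) ≃ (Fin l → Fin n → ι) × (Fin r → ι) :=
  ((finCongr h).arrowCongr (Equiv.refl ι)).trans
    (((finSumFinEquiv.symm.trans (Equiv.sumCongr finProdFinEquiv.symm (Equiv.refl (Fin r)))).arrowCongr
      (Equiv.refl ι)).trans ((Equiv.sumArrowEquivProdArrow _ _ _).trans
        ((Equiv.curry _ _ _).prodCongr (Equiv.refl _))))

theorem wordEquiv_fst (ι : Type) (M n l r : ℕ) (h : M = l * n + r) (W : Fin M → ι) (j : Fin l)
    (h' : n * j.val + n ≤ M) : (wordEquiv ι M n l r h W).1 j = blk (n * j.val) h' W := by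
  funext t
  have hj := j.isLt
  have ht := t.isLt
  change W _ = W _
  congr 1
  apply Fin.ext
  simp [finSumFinEquiv, finProdFinEquiv]
  ring

/-- the generating function of the words -/
theorem sum_words (ι : Type) [Fintype ι] [DecidableEq ι] (M n l : ℕ) (hl : n * l ≤ M)
    (y : (Fin n → ι) → ℝ) :
    ∑ W : Fin M → ι, ∏ j : Fin l, y (blk (n * j.val) (by
      have := j.isLt
      calc n * j.val + n = n * (j.val + 1) := by ring
        _ ≤ n * l := Nat.mul_le_mul_left n this
        _ ≤ M := hl) W) = (∑ u, y u) ^ l * (Fintype.card ι : ℝ) ^ (M - n * l) := by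
  have h : M = l * n + (M - n * l) := by
    have : l * n = n * l := Nat.mul_comm l n
    omega
  have h2 : ∀ W : Fin M → ι, (∏ j : Fin l, y (blk (n * j.val) (by
      have := j.isLt
      calc n * j.val + n = n * (j.val + 1) := by ring
        _ ≤ n * l := Nat.mul_le_mul_left n this
        _ ≤ M := hl) W)) = ∏ j : Fin l, y ((wordEquiv ι M n l (M - n * l) h W).1 j) := by
    intro W
    refine Finset.prod_congr rfl fun j _ => ?_
    rw [wordEquiv_fst]
  simp only [h2]
  rw [(wordEquiv ι M n l (M - n * l) h).sum_comp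
    (fun p : (Fin l → Fin n → ι) × (Fin (M - n * l) → ι) => ∏ j : Fin l, y (p.1 j)),
    Fintype.sum_prod_type]
  simp only [Finset.sum_const, Finset.card_univ, Fintype.card_fun, Fintype.card_fin,
    nsmul_eq_mul]
  rw [← Finset.mul_sum]
  have h3 : ∑ u : Fin l → Fin n → ι, ∏ j, y (u j) = (∑ u, y u) ^ l := by
    rw [← Fintype.piFinset_univ, ← Finset.prod_univ_sum]
    simp
  rw [h3]
  push_cast
  ring

variable {k : Type} [Field k] {ι : Type} [Fintype ι] [DecidableEq ι]

theorem jensen {α : Type} [DecidableEq α] (L : Finset α) (c : α → ℕ) (x : ℝ) (hx : 1 ≤ x) (s : ℝ)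
    (hs : s ≤ ∑ w ∈ L, (c w : ℝ)) : (L.card : ℝ) * x ^ (s / L.card) ≤ ∑ w ∈ L, x ^ (c w) := by
  rcases L.eq_empty_or_nonempty with rfl | hne
  · simp
  have hN : (0 : ℝ) < L.card := by exact_mod_cast Finset.card_pos.2 hne
  have hx0 : 0 < x := by linarith
  have hlog : 0 ≤ Real.log x := Real.log_nonneg hx
  have h1 := convexOn_exp.map_sum_le (t := L) (w := fun _ => (1 : ℝ) / L.card)
    (p := fun w => (c w : ℝ) * Real.log x) (fun _ _ => by positivity)
    (by rw [Finset.sum_const, nsmul_eq_mul]; field_simp) (fun _ _ => Set.mem_univ _)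
  simp only [smul_eq_mul] at h1
  have h2 : ∀ w, Real.exp ((c w : ℝ) * Real.log x) = x ^ (c w) := by
    intro w
    rw [← Real.rpow_natCast, Real.rpow_def_of_pos hx0, mul_comm]
  simp only [h2] at h1
  rw [← Finset.mul_sum, ← Finset.mul_sum, ← Finset.sum_mul] at h1
  have h3 : x ^ (s / L.card) ≤ Real.exp (1 / L.card * ((∑ w ∈ L, (c w : ℝ)) * Real.log x)) := by
    rw [Real.rpow_def_of_pos hx0]
    apply Real.exp_le_exp.2
    have h4 : Real.log x * (s / L.card) ≤ Real.log x * ((∑ w ∈ L, (c w : ℝ)) / L.card) :=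
      mul_le_mul_of_nonneg_left (div_le_div_of_nonneg_right hs hN.le) hlog
    refine h4.trans (le_of_eq ?_)
    ring
  have h5 := h3.trans h1
  calc (L.card : ℝ) * x ^ (s / L.card) ≤ L.card * (1 / L.card * ∑ w ∈ L, x ^ (c w)) :=
        mul_le_mul_of_nonneg_left h5 hN.le
    _ = ∑ w ∈ L, x ^ (c w) := by field_simp

end T1

open T1 in
theorem count_idem {k : Type} [Field k] {ι : Type} [Fintype ι] [DecidableEq ι] {n : ℕ} (hn : 0 < n)
    (e : Matrix (Fin n → ι) (Fin n → ι) k) (he : e * e = e) (M l : ℕ) (hl : n * l ≤ M)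
    (B : Submodule k (T k ι M))
    (hB : ∀ (j : ℕ) (h : n * j + n ≤ M), ∀ z ∈ B, opAt (n * j) h e *ᵥ z ∈ B)
    (f : ℕ) (hf : ∀ (j : ℕ) (h : n * j + n ≤ M), f ≤ finrank k (fixed B (opAt (n * j) h e)))
    (x : ℝ) (hx : 1 ≤ x) :
    (finrank k B : ℝ) * x ^ ((l : ℝ) * f / finrank k B) ≤
      (x * e.rank + ((Fintype.card ι : ℝ) ^ n - e.rank)) ^ l *
        (Fintype.card ι : ℝ) ^ (M - n * l) := by
  classical
  obtain ⟨g, gi, J1, h1, h2, h3, h4⟩ := exists_conj e he
  obtain ⟨G, Gi, e1, e2, e3, -⟩ := exists_G (M := M) h1 h2 h4 l hl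
  have hjl : ∀ j : Fin l, n * j.val + n ≤ M := by
    intro j
    have := j.isLt
    calc n * j.val + n = n * (j.val + 1) := by ring
      _ ≤ n * l := Nat.mul_le_mul_left n this
      _ ≤ M := hl
  -- the adapted basis
  let 𝔅 : Basis (Fin M → ι) k (T k ι M) := Basis.ofEquivFun (Matrix.toLin'OfInv e2 e1)
  have hrepr : ∀ (z : T k ι M) (w : Fin M → ι), 𝔅.repr z w = (G *ᵥ z) w := fun z w => by
    rw [Basis.ofEquivFun_repr_apply]
    rfl
  have hE : ∀ (j : Fin l) (z : T k ι M) (w : Fin M → ι),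
      𝔅.repr (opAt (n * j.val) (hjl j) e *ᵥ z) w =
        if blk (n * j.val) (hjl j) w ∈ J1 then 𝔅.repr z w else 0 := by
    intro j z w
    rw [hrepr, hrepr, Matrix.mulVec_mulVec, e3 j.val (hjl j) j.isLt, opAt_diagonal,
      ← Matrix.mulVec_mulVec, Matrix.mulVec_diagonal]
    split_ifs
    · rw [one_mul]
    · rw [zero_mul]
  let key : (Fin M → ι) → Fin (Fintype.card (Fin M → ι)) := Fintype.equivFin _
  have hkey : Function.Injective key := (Fintype.equivFin _).injective
  obtain ⟨L, hLdef⟩ : ∃ L, L = ZO.lead 𝔅 key B := ⟨_, rfl⟩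
  have hL : L.card = finrank k B := by
    rw [hLdef]
    exact ZO.card_lead 𝔅 key hkey B
  have hlead : ∀ j : Fin l, f ≤ (L.filter fun w => blk (n * j.val) (hjl j) w ∈ J1).card := by
    intro j
    refine (hf j.val (hjl j)).trans (le_of_eq ?_)
    rw [← ZO.card_lead 𝔅 key hkey]
    congr 1
    ext w
    rw [Finset.mem_filter, hLdef, ZO.mem_lead, ZO.mem_lead]
    constructor
    · rintro ⟨z, ⟨hz, hz'⟩, hw, hw'⟩
      refine ⟨⟨z, hz, hw, hw'⟩, ?_⟩
      by_contra hn1
      apply hw
      have h5 := hE j z w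
      rw [hz', if_neg hn1] at h5
      exact h5
    · rintro ⟨⟨z, hz, hw, hw'⟩, hw1⟩
      refine ⟨opAt (n * j.val) (hjl j) e *ᵥ z, ⟨hB j.val (hjl j) z hz, ?_⟩, ?_, fun i hi => ?_⟩
      · rw [Matrix.mulVec_mulVec, opAt_mul, he]
      · rw [hE, if_pos hw1]
        exact hw
      · rw [hE, hw' i hi]
        split_ifs <;> rfl
  obtain ⟨c, hc⟩ : ∃ c : (Fin M → ι) → ℕ, c = fun w =>
      (Finset.univ.filter fun j : Fin l => blk (n * j.val) (hjl j) w ∈ J1).card := ⟨_, rfl⟩
  have hsum : (l : ℝ) * f ≤ ∑ w ∈ L, (c w : ℝ) := by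
    have h5 : l * f ≤ ∑ w ∈ L, c w := by
      calc l * f = ∑ _j : Fin l, f := by simp
        _ ≤ ∑ j : Fin l, (L.filter fun w => blk (n * j.val) (hjl j) w ∈ J1).card :=
            Finset.sum_le_sum fun j _ => hlead j
        _ = ∑ w ∈ L, c w := by
            simp only [hc, Finset.card_filter]
            exact Finset.sum_comm
    exact_mod_cast h5
  have hprod : ∀ w : Fin M → ι, x ^ (c w) = ∏ j : Fin l,
      (fun u : Fin n → ι => if u ∈ J1 then x else 1) (blk (n * j.val) (hjl j) w) := by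
    intro w
    simp only [hc]
    rw [Finset.prod_ite]
    simp
  have hy : ∑ u : Fin n → ι, (if u ∈ J1 then x else (1 : ℝ)) =
      x * e.rank + ((Fintype.card ι : ℝ) ^ n - e.rank) := by
    have h5 : ∀ u : Fin n → ι, (if u ∈ J1 then x else (1 : ℝ)) =
        1 + (if u ∈ J1 then x - 1 else 0) := by
      intro u
      split_ifs <;> ring
    simp only [h5]
    rw [Finset.sum_add_distrib, Finset.sum_ite_mem, Finset.univ_inter, Finset.sum_const,
      Finset.sum_const, Finset.card_univ, Fintype.card_fun, Fintype.card_fin, h3]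
    simp only [nsmul_eq_mul]
    push_cast
    ring
  have hx0 : (0 : ℝ) ≤ x := by linarith
  calc (finrank k B : ℝ) * x ^ ((l : ℝ) * f / finrank k B)
      = (L.card : ℝ) * x ^ ((l : ℝ) * f / L.card) := by rw [hL]
    _ ≤ ∑ w ∈ L, x ^ (c w) := jensen L c x hx _ hsum
    _ ≤ ∑ w, x ^ (c w) :=
        Finset.sum_le_sum_of_subset_of_nonneg (Finset.subset_univ _) fun w _ _ =>
          pow_nonneg hx0 _
    _ = _ := by
        rw [Finset.sum_congr rfl fun w _ => hprod w, ← hy]
        exact sum_words ι M n l hl fun u => if u ∈ J1 then x else 1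

end

end Pool.Agent.K4H10.QZ
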