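import Pool.Agent.K4H10.QZ.Defs

/-!
# Quantization of the proportion of a closed family: the limit

`limit_idem`: two one-sided moment bounds, for `x ↦ 1+`, squeeze the proportion to `r / D ^ n`.
-/

set_option autoImplicit false

namespace Pool.Agent.K4H10.QZ

open Filter Topology

/-- `A + c log (l + 1) ≤ δ l` for all large `l`. -/
private lemma log_small (A c δ : ℝ) (hδ : 0 < δ) :
    ∀ᶠ l : ℕ in atTop, A + c * Real.log ((l : ℝ) + 1) ≤ δ * l := by
  have h0 : Tendsto (fun l : ℕ => (l : ℝ) + 1) atTop atTop :=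
    tendsto_atTop_add_const_right _ _ tendsto_natCast_atTop_atTop
  have h1 := (Real.isLittleO_log_id_atTop.comp_tendsto h0)
  have hc : 0 < δ / (2 * (|c| + 1)) := by positivity
  have h2 := h1.bound hc
  have h3 : ∀ᶠ l : ℕ in atTop, (A + δ / 2) / (δ / 2) ≤ (l : ℝ) :=
    tendsto_natCast_atTop_atTop.eventually_ge_atTop _
  filter_upwards [h2, h3] with l hl hl'
  simp only [Function.comp, id, Real.norm_eq_abs] at hl
  rw [abs_of_nonneg (a := (l : ℝ) + 1) (by positivity)] at hl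
  rw [div_le_iff₀ (by positivity)] at hl'
  have h4 : c * Real.log ((l : ℝ) + 1) ≤ |c| * |Real.log ((l : ℝ) + 1)| := by
    rw [← abs_mul]; exact le_abs_self _
  have h5 : |c| * |Real.log ((l : ℝ) + 1)| ≤ |c| * (δ / (2 * (|c| + 1)) * ((l : ℝ) + 1)) :=
    mul_le_mul_of_nonneg_left hl (abs_nonneg _)
  have h6 : |c| * (δ / (2 * (|c| + 1)) * ((l : ℝ) + 1)) ≤ δ / 2 * ((l : ℝ) + 1) := by
    have : |c| * (δ / (2 * (|c| + 1)) * ((l : ℝ) + 1)) =
        (|c| / (|c| + 1)) * (δ / 2 * ((l : ℝ) + 1)) := by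
      field_simp
    rw [this]
    apply mul_le_of_le_one_left (by positivity)
    rw [div_le_one (by positivity)]
    linarith
  nlinarith

/-- The one-sided bound. -/
private lemma onesided (D n : ℕ) (hD : 0 < D) (hn : 0 < n) (p : ℝ) (hp0 : 0 ≤ p) (hp1 : p ≤ 1)
    (b f : ℕ → ℕ) (c : ℕ) (hlow : ∀ M, D ^ M ≤ b M * c * (M + 1) ^ c) (hpos : ∀ M, 0 < b M)
    (h : ∀ M l, n * l ≤ M → ∀ x : ℝ, 1 ≤ x → (b M : ℝ) * x ^ ((l : ℝ) * f M / b M) ≤
      ((D : ℝ) ^ n * (1 + p * (x - 1))) ^ l * (D : ℝ) ^ (M - n * l)) (ε : ℝ) (hε : 0 < ε) :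
    ∀ᶠ M in atTop, (f M : ℝ) / b M ≤ p + ε := by
  obtain ⟨t, ht, rfl⟩ : ∃ t : ℝ, 0 < t ∧ ε = 2 * t := ⟨ε / 2, by positivity, by ring⟩
  have hc : 0 < c := by
    have h0 := hlow 0
    rcases Nat.eq_zero_or_pos c with h1 | h1
    · simp [h1] at h0
    · exact h1
  have hDr : (0 : ℝ) < D := by exact_mod_cast hD
  have hL : 0 < Real.log (1 + t) := Real.log_pos (by linarith)
  -- the limit along `l`
  have hdiv : Tendsto (fun M : ℕ => M / n) atTop atTop :=
    Filter.tendsto_atTop_atTop.2 fun B => ⟨B * n, fun M hM => (Nat.le_div_iff_mul_le hn).2 hM⟩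
  have hsm := hdiv.eventually (log_small (Real.log c + c * Real.log n) c (t * Real.log (1 + t))
    (by positivity))
  have hl1 : ∀ᶠ M in atTop, 1 ≤ M / n := hdiv.eventually_ge_atTop 1
  filter_upwards [hsm, hl1] with M hM hl1
  set l := M / n with hl
  have hnl : n * l ≤ M := Nat.mul_div_le M n
  have hMl : M + 1 ≤ n * (l + 1) := by
    have := Nat.lt_mul_div_succ M hn
    rw [hl]; omega
  have hlr : (0 : ℝ) < l := by exact_mod_cast hl1
  have hb : (0 : ℝ) < b M := by exact_mod_cast hpos M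
  have hx := h M l hnl (1 + t) (by linarith)
  have hx1 : (0 : ℝ) < 1 + t := by linarith
  have hpt : 0 < 1 + p * (1 + t - 1) := by
    have : 0 ≤ p * (1 + t - 1) := mul_nonneg hp0 (by linarith)
    linarith
  -- take logs
  have hlog := Real.log_le_log (by positivity) hx
  rw [Real.log_mul hb.ne' (by positivity), Real.log_rpow hx1,
    Real.log_mul (by positivity) (by positivity), Real.log_pow, Real.log_pow,
    Real.log_mul (by positivity) hpt.ne', Real.log_pow, Nat.cast_sub hnl] at hlog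
  push_cast at hlog
  -- the lower bound on `b`
  have hlow' : (M : ℝ) * Real.log D ≤ Real.log (b M) + Real.log c +
      c * (Real.log n + Real.log ((l : ℝ) + 1)) := by
    have h1 : ((D : ℝ)) ^ M ≤ (b M : ℝ) * c * ((n : ℝ) * ((l : ℝ) + 1)) ^ c := by
      have h2 : ((D : ℝ)) ^ M ≤ (b M : ℝ) * c * ((M : ℝ) + 1) ^ c := by exact_mod_cast hlow M
      refine h2.trans ?_
      have h3 : ((M : ℝ) + 1) ≤ (n : ℝ) * ((l : ℝ) + 1) := by exact_mod_cast hMl
      gcongr
    have hcr : (0 : ℝ) < c := by exact_mod_cast hc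
    have hnr : (0 : ℝ) < n := by exact_mod_cast hn
    have h4 := Real.log_le_log (by positivity) h1
    rw [Real.log_pow, Real.log_mul (by positivity) (by positivity),
      Real.log_mul (by positivity) (by positivity), Real.log_pow,
      Real.log_mul (by positivity) (by positivity)] at h4
    linarith
  -- `log (1 + p t) ≤ p t` and `t ≤ (1 + t) log (1 + t)`
  have hu : Real.log (1 + p * (1 + t - 1)) ≤ p * t := by
    have := Real.log_le_sub_one_of_pos hpt
    linarith
  have hv : t ≤ (1 + t) * Real.log (1 + t) := by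
    have h1 := Real.one_sub_inv_le_log_of_pos hx1
    have h2 : (1 + t) * (1 - (1 + t)⁻¹) = t := by field_simp; ring
    calc t = (1 + t) * (1 - (1 + t)⁻¹) := h2.symm
      _ ≤ _ := mul_le_mul_of_nonneg_left h1 hx1.le
  have hw : p * t ≤ (p + t) * Real.log (1 + t) := by
    calc p * t ≤ p * ((1 + t) * Real.log (1 + t)) := mul_le_mul_of_nonneg_left hv hp0
      _ = (p + p * t) * Real.log (1 + t) := by ring
      _ ≤ (p + t) * Real.log (1 + t) := by
        apply mul_le_mul_of_nonneg_right _ hL.le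
        have := mul_le_of_le_one_left ht.le hp1
        linarith
  have key : (l : ℝ) * f M / b M * Real.log (1 + t) ≤
      t * Real.log (1 + t) * l + l * ((p + t) * Real.log (1 + t)) := by
    have h1 : (l : ℝ) * Real.log (1 + p * (1 + t - 1)) ≤ l * ((p + t) * Real.log (1 + t)) :=
      mul_le_mul_of_nonneg_left (hu.trans hw) hlr.le
    nlinarith
  have key2 : (l : ℝ) * Real.log (1 + t) * ((f M : ℝ) / b M) ≤
      (l : ℝ) * Real.log (1 + t) * (p + 2 * t) := by
    calc (l : ℝ) * Real.log (1 + t) * ((f M : ℝ) / b M)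
        = (l : ℝ) * f M / b M * Real.log (1 + t) := by ring
      _ ≤ _ := key
      _ = _ := by ring
  exact le_of_mul_le_mul_left key2 (by positivity)

theorem limit_idem (D n r : ℕ) (hD : 0 < D) (hn : 0 < n) (hr : r ≤ D ^ n) (b f f' : ℕ → ℕ)
    (c : ℕ) (hlow : ∀ M, D ^ M ≤ b M * c * (M + 1) ^ c) (hpos : ∀ M, 0 < b M)
    (hsum : ∀ M, f M + f' M = b M)
    (h1 : ∀ M l, n * l ≤ M → ∀ x : ℝ, 1 ≤ x → (b M : ℝ) * x ^ ((l : ℝ) * f M / b M) ≤
      (x * r + ((D : ℝ) ^ n - r)) ^ l * (D : ℝ) ^ (M - n * l))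
    (h2 : ∀ M l, n * l ≤ M → ∀ x : ℝ, 1 ≤ x → (b M : ℝ) * x ^ ((l : ℝ) * f' M / b M) ≤
      (x * ((D : ℝ) ^ n - r) + r) ^ l * (D : ℝ) ^ (M - n * l)) :
    Tendsto (fun M => (f M : ℝ) / b M) atTop (𝓝 (r / (D : ℝ) ^ n)) := by
  have hDr : (0 : ℝ) < (D : ℝ) ^ n := by positivity
  have hrr : (r : ℝ) ≤ (D : ℝ) ^ n := by exact_mod_cast hr
  have hp0 : 0 ≤ (r : ℝ) / (D : ℝ) ^ n := by positivity
  have hp1 : (r : ℝ) / (D : ℝ) ^ n ≤ 1 := (div_le_one hDr).2 hrr
  have e1 := onesided D n hD hn (r / (D : ℝ) ^ n) hp0 hp1 b f c hlow hpos (by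
    intro M l hl x hx
    have := h1 M l hl x hx
    convert this using 3
    field_simp
    ring)
  have e2 := onesided D n hD hn (1 - r / (D : ℝ) ^ n) (by linarith) (by linarith) b f' c hlow hpos
    (by
      intro M l hl x hx
      have := h2 M l hl x hx
      convert this using 3
      field_simp
      ring)
  rw [Metric.tendsto_nhds]
  intro ε hε
  filter_upwards [e1 (ε / 2) (by positivity), e2 (ε / 2) (by positivity)] with M hM1 hM2
  have hb : (0 : ℝ) < b M := by exact_mod_cast hpos M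
  have hs : (f M : ℝ) / b M + (f' M : ℝ) / b M = 1 := by
    rw [← add_div, div_eq_one_iff_eq hb.ne']
    exact_mod_cast hsum M
  rw [Real.dist_eq, abs_lt]
  constructor <;> linarith

end Pool.Agent.K4H10.QZ
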