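import Pool.Agent.K4H10.QZ.Defs

/-!
# Bending in a closed family

One input can be bent up to the right (`ub`) or up to the left (`lb`); both are injective and keep the
family, and commute with an operator which acts at given places.
-/

set_option autoImplicit false
set_option linter.unusedSectionVars false

namespace Pool.Agent.K4H10.QZ

open Matrix Module Filter Topology Pool.Agent.K4H54.PL

noncomputable section

variable {k : Type} [Field k] {ι : Type} [Fintype ι] [DecidableEq ι]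

/-! ### Bending one input to the right -/

/-- the last input is bent up to the right -/
def ub (qi : Matrix ι ι k) {a c : ℕ} (F : Matrix (Fin c → ι) (Fin (a + 1) → ι) k) :
    Matrix (Fin (c + 1) → ι) (Fin a → ι) k :=
  Matrix.of fun u y => ∑ i, F (fun s => u s.castSucc) (sn y i) * qi i (u (Fin.last c))

theorem ub_sn (qi : Matrix ι ι k) {a c : ℕ} (F : Matrix (Fin c → ι) (Fin (a + 1) → ι) k)
    (x : Fin c → ι) (l : ι) (y : Fin a → ι) :
    ub qi F (sn x l) y = ∑ i, F x (sn y i) * qi i l := by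
  change ∑ i, F (fun s => sn x l s.castSucc) (sn y i) * qi i (sn x l (Fin.last c)) = _
  have e1 : (fun s => sn x l (Fin.castSucc s)) = x := funext fun s => sn_castSucc x l s
  rw [e1, sn_last]

/-- appending one entry on the left -/
def cn {c : ℕ} (i : ι) (x : Fin c → ι) : Fin (c + 1) → ι := Fin.cons i x

theorem cn_zero {c : ℕ} (i : ι) (x : Fin c → ι) : cn i x 0 = i := rfl

theorem cn_succ {c : ℕ} (i : ι) (x : Fin c → ι) (s : Fin c) : cn i x s.succ = x s := rfl

/-- the first input is bent up to the left -/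
def lb (qi : Matrix ι ι k) {a c : ℕ} (F : Matrix (Fin c → ι) (Fin (a + 1) → ι) k) :
    Matrix (Fin (c + 1) → ι) (Fin a → ι) k :=
  Matrix.of fun u y => ∑ i, qi (u 0) i * F (fun s => u s.succ) (cn i y)

theorem lb_cn (qi : Matrix ι ι k) {a c : ℕ} (F : Matrix (Fin c → ι) (Fin (a + 1) → ι) k)
    (x : Fin c → ι) (l : ι) (y : Fin a → ι) :
    lb qi F (cn l x) y = ∑ i, qi l i * F x (cn i y) := rfl

theorem exists_sn {c : ℕ} (u : Fin (c + 1) → ι) : ∃ x i, u = sn x i :=
  ⟨fun s => u s.castSucc, u (Fin.last c), (Fin.snoc_init_self (α := fun _ => ι) u).symm⟩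

theorem exists_cn {c : ℕ} (u : Fin (c + 1) → ι) : ∃ i x, u = cn i x :=
  ⟨u 0, fun s => u s.succ, (Fin.cons_self_tail (α := fun _ => ι) u).symm⟩

theorem sum_cn {c : ℕ} (f : (Fin (c + 1) → ι) → k) : ∑ u, f u = ∑ i, ∑ x, f (cn i x) := by
  rw [← (Fin.consEquiv (fun _ : Fin (c + 1) => ι)).sum_comp, Fintype.sum_prod_type]
  rfl

section basic

variable {q qi : Matrix ι ι k}

theorem ub_inj (hq : q * qi = 1) {a c : ℕ} {F : Matrix (Fin c → ι) (Fin (a + 1) → ι) k}
    (h : ub qi F = 0) : F = 0 := by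
  have hq' : qi * q = 1 := mul_eq_one_comm.mp hq
  ext x u
  obtain ⟨y, i, rfl⟩ := exists_sn u
  have h1 : (fun j => F x (sn y j)) ᵥ* qi = 0 := by
    funext l
    have h2 := congrFun (congrFun h (sn x l)) y
    rw [ub_sn] at h2
    exact h2
  have h2 := congrArg (fun v => v ᵥ* q) h1
  simp only [vecMul_vecMul, hq', vecMul_one, zero_vecMul] at h2
  exact congrFun h2 i

theorem lb_inj (hq : q * qi = 1) {a c : ℕ} {F : Matrix (Fin c → ι) (Fin (a + 1) → ι) k}
    (h : lb qi F = 0) : F = 0 := by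
  ext x u
  obtain ⟨i, y, rfl⟩ := exists_cn u
  have h1 : qi *ᵥ (fun j => F x (cn j y)) = 0 := by
    funext l
    have h2 := congrFun (congrFun h (cn l x)) y
    rw [lb_cn] at h2
    exact h2
  have h2 := congrArg (fun v => q *ᵥ v) h1
  simp only [mulVec_mulVec, hq, one_mulVec, mulVec_zero] at h2
  exact congrFun h2 i

/-- `ub` as a linear map -/
def ubL (qi : Matrix ι ι k) (a c : ℕ) :
    Matrix (Fin c → ι) (Fin (a + 1) → ι) k →ₗ[k] Matrix (Fin (c + 1) → ι) (Fin a → ι) k where
  toFun := ub qi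
  map_add' F G := by
    ext u y
    simp only [ub, Matrix.of_apply, Matrix.add_apply, add_mul, Finset.sum_add_distrib]
  map_smul' r F := by
    ext u y
    simp only [ub, Matrix.of_apply, Matrix.smul_apply, smul_eq_mul, Finset.mul_sum, mul_assoc,
      RingHom.id_apply]

/-- `lb` as a linear map -/
def lbL (qi : Matrix ι ι k) (a c : ℕ) :
    Matrix (Fin c → ι) (Fin (a + 1) → ι) k →ₗ[k] Matrix (Fin (c + 1) → ι) (Fin a → ι) k where
  toFun := lb qi
  map_add' F G := by
    ext u y
    simp only [lb, Matrix.of_apply, Matrix.add_apply, mul_add, Finset.sum_add_distrib]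
  map_smul' r F := by
    ext u y
    simp only [lb, Matrix.of_apply, Matrix.smul_apply, smul_eq_mul, Finset.mul_sum,
      RingHom.id_apply]
    exact Finset.sum_congr rfl fun i _ => by ring

theorem ubL_inj (hq : q * qi = 1) (a c : ℕ) : Function.Injective (ubL qi a c) := by
  rw [injective_iff_map_eq_zero]
  exact fun F hF => ub_inj hq hF

theorem lbL_inj (hq : q * qi = 1) (a c : ℕ) : Function.Injective (lbL qi a c) := by
  rw [injective_iff_map_eq_zero]
  exact fun F hF => lb_inj hq hF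

end basic

/-! ### The family -/

section family

variable {R : ∀ a c : ℕ, Matrix (Fin c → ι) (Fin a → ι) k → Prop} {q qi : Matrix ι ι k} {σ : ι → k}

/-- Relabelling of the places along equalities. -/
theorem cast_mem {a a' c c' : ℕ} (ha : a' = a) (hc : c' = c)
    {F : Matrix (Fin c → ι) (Fin a → ι) k} {G : Matrix (Fin c' → ι) (Fin a' → ι) k}
    (hG : ∀ x y, G x y = F (fun s => x (Fin.cast hc.symm s)) (fun s => y (Fin.cast ha.symm s)))
    (hF : R a c F) : R a' c' G := by
  subst ha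
  subst hc
  have h1 : G = F := by
    ext x y
    exact hG x y
  rwa [h1]

theorem ex_cup (a : ℕ) (x y : Fin a → ι) (i j : ι) :
    (ex (1 : Matrix (Fin a → ι) (Fin a → ι) k) (fq qi)ᵀ :
      Matrix (Fin (a + 2) → ι) (Fin (a + 0) → ι) k) (sn (sn x i) j) y =
      (if x = y then 1 else 0) * qi i j := by
  change (1 : Matrix (Fin a → ι) (Fin a → ι) k) (fun s => sn (sn x i) j (Fin.castAdd 2 s))
    (fun s => y (Fin.castAdd 0 s)) *
    qi (sn (sn x i) j (Fin.natAdd a (0 : Fin 2))) (sn (sn x i) j (Fin.natAdd a (1 : Fin 2))) = _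
  have e1 : (fun s => sn (sn x i) j (Fin.castAdd 2 s)) = x := by
    funext s
    have h : (Fin.castAdd 2 s : Fin (a + 2)) = (s.castSucc).castSucc := rfl
    rw [h, sn_castSucc, sn_castSucc]
  have e2 : (Fin.natAdd a (0 : Fin 2) : Fin (a + 2)) = (Fin.last a).castSucc := rfl
  have e3 : (Fin.natAdd a (1 : Fin 2) : Fin (a + 2)) = Fin.last (a + 1) := rfl
  rw [e1, e2, e3, sn_castSucc, sn_last, sn_last]
  have e4 : (fun s => y (Fin.castAdd 0 s)) = y := rfl
  rw [e4, Matrix.one_apply]

theorem ex_id' {a c : ℕ} (F : Matrix (Fin c → ι) (Fin a → ι) k) (x : Fin c → ι)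
    (y : Fin a → ι) (j l : ι) :
    (ex F (1 : Matrix (Fin 1 → ι) (Fin 1 → ι) k) :
        Matrix (Fin (c + 1) → ι) (Fin (a + 1) → ι) k) (sn x j) (sn y l) =
      F x y * (if j = l then 1 else 0) := by
  change F (fun s => sn x j (Fin.castAdd 1 s)) (fun s => sn y l (Fin.castAdd 1 s)) *
    (1 : Matrix (Fin 1 → ι) (Fin 1 → ι) k) (fun s => sn x j (Fin.natAdd c s))
      (fun s => sn y l (Fin.natAdd a s)) = _
  have e1 : (fun s => sn x j (Fin.castAdd 1 s)) = x := by
    funext s
    exact sn_castSucc x j s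
  have e2 : (fun s => sn y l (Fin.castAdd 1 s)) = y := by
    funext s
    exact sn_castSucc y l s
  have e3 : (fun s : Fin 1 => sn x j (Fin.natAdd c s)) = fun _ => j := by
    funext s
    have h : (Fin.natAdd c s : Fin (c + 1)) = Fin.last c := by
      ext
      simp
    rw [h, sn_last]
  have e4 : (fun s : Fin 1 => sn y l (Fin.natAdd a s)) = fun _ => l := by
    funext s
    have h : (Fin.natAdd a s : Fin (a + 1)) = Fin.last a := by
      ext
      simp
    rw [h, sn_last]
  rw [e1, e2, e3, e4, Matrix.one_apply]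
  congr 1
  refine if_congr ?_ rfl rfl
  exact ⟨fun h => congrFun h 0, fun h => by rw [h]⟩

theorem ub_mem (h : Rig R q qi σ) {a c : ℕ} {F : Matrix (Fin c → ι) (Fin (a + 1) → ι) k}
    (hF : R (a + 1) c F) : R a (c + 1) (ub qi F) := by
  have h1 : R a (c + 1) ((ex F (1 : Matrix (Fin 1 → ι) (Fin 1 → ι) k) :
      Matrix (Fin (c + 1) → ι) (Fin (a + 1 + 1) → ι) k) *
      (ex (1 : Matrix (Fin a → ι) (Fin a → ι) k) (fq qi)ᵀ :
        Matrix (Fin (a + 2) → ι) (Fin (a + 0) → ι) k)) :=
    h.clo.comp (h.clo.prod (h.idn a) h.inverse) (h.clo.prod hF (h.idn 1))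
  convert h1 using 1
  ext u y
  obtain ⟨x, l, rfl⟩ := exists_sn u
  rw [ub_sn, Matrix.mul_apply]
  refine Eq.symm ?_
  refine (sum_sn (fun w : Fin (a + 1 + 1) → ι =>
    (ex F (1 : Matrix (Fin 1 → ι) (Fin 1 → ι) k) :
      Matrix (Fin (c + 1) → ι) (Fin (a + 1 + 1) → ι) k) (sn x l) w *
      (ex (1 : Matrix (Fin a → ι) (Fin a → ι) k) (fq qi)ᵀ :
        Matrix (Fin (a + 2) → ι) (Fin (a + 0) → ι) k) w y)).trans ?_
  rw [sum_sn]
  simp only [ex_id', ex_cup]
  rw [Finset.sum_eq_single y]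
  · refine Finset.sum_congr rfl fun i _ => ?_
    rw [Finset.sum_eq_single l]
    · rw [if_pos rfl, if_pos rfl]
      ring
    · intro j _ hj
      rw [if_neg (Ne.symm hj)]
      ring
    · intro h
      exact absurd (Finset.mem_univ _) h
  · intro x' _ hx'
    refine Finset.sum_eq_zero fun i _ => Finset.sum_eq_zero fun j _ => ?_
    rw [if_neg hx']
    ring
  · intro h
    exact absurd (Finset.mem_univ _) h


/-- the class of the inverse form at the left -/
def cupM (qi : Matrix ι ι k) (a : ℕ) : Matrix (Fin (a + 2) → ι) (Fin a → ι) k :=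
  Matrix.of fun u y => qi (u 0) (u 1) * (if (fun s => u (Fin.succ (Fin.succ s))) = y then 1 else 0)

theorem cupM_cn (qi : Matrix ι ι k) (a : ℕ) (x y : Fin a → ι) (j i : ι) :
    cupM qi a (cn j (cn i x)) y = qi j i * (if x = y then 1 else 0) := rfl

/-- the identity at the left -/
def idlM {a c : ℕ} (F : Matrix (Fin c → ι) (Fin a → ι) k) :
    Matrix (Fin (c + 1) → ι) (Fin (a + 1) → ι) k :=
  Matrix.of fun u y => (if u 0 = y 0 then 1 else 0) * F (fun s => u s.succ) (fun s => y s.succ)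

theorem idlM_cn {a c : ℕ} (F : Matrix (Fin c → ι) (Fin a → ι) k) (x : Fin c → ι) (y : Fin a → ι)
    (j l : ι) : idlM F (cn j x) (cn l y) = (if j = l then 1 else 0) * F x y := rfl

theorem cup_mem (h : Rig R q qi σ) (a : ℕ) : R a (a + 2) (cupM qi a) := by
  refine cast_mem (Nat.zero_add a).symm (Nat.add_comm a 2) (F := ex (fq qi)ᵀ
    (1 : Matrix (Fin a → ι) (Fin a → ι) k)) ?_ (h.clo.prod h.inverse (h.idn a))
  intro x y
  change qi (x 0) (x 1) * (if (fun s => x (Fin.succ (Fin.succ s))) = y then 1 else 0) =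
    qi (x (Fin.cast _ (Fin.castAdd a 0))) (x (Fin.cast _ (Fin.castAdd a 1))) *
    (1 : Matrix (Fin a → ι) (Fin a → ι) k) (fun s => x (Fin.cast _ (Fin.natAdd 2 s)))
      (fun s => y (Fin.cast _ (Fin.natAdd 0 s)))
  have e1 : (Fin.cast (Nat.add_comm a 2).symm (Fin.castAdd a (0 : Fin 2))) = 0 := rfl
  have e2 : (Fin.cast (Nat.add_comm a 2).symm (Fin.castAdd a (1 : Fin 2))) = 1 := rfl
  have e3 : (fun s : Fin a => x (Fin.cast (Nat.add_comm a 2).symm (Fin.natAdd 2 s))) =
      fun s => x (Fin.succ (Fin.succ s)) := by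
    funext s
    congr 1
    ext
    simp only [Fin.val_cast, Fin.val_natAdd, Fin.val_succ]
    omega
  have e4 : (fun s : Fin a => y (Fin.cast (Nat.zero_add a) (Fin.natAdd 0 s))) = y := by
    funext s
    congr 1
    ext
    simp
  rw [e1, e2, e3, e4, Matrix.one_apply]

theorem idl_mem (h : Rig R q qi σ) {a c : ℕ} {F : Matrix (Fin c → ι) (Fin a → ι) k}
    (hF : R a c F) : R (a + 1) (c + 1) (idlM F) := by
  refine cast_mem (Nat.add_comm a 1) (Nat.add_comm c 1) (F := ex
    (1 : Matrix (Fin 1 → ι) (Fin 1 → ι) k) F) ?_ (h.clo.prod (h.idn 1) hF)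
  intro x y
  change (if x 0 = y 0 then 1 else 0) * F (fun s => x s.succ) (fun s => y s.succ) =
    (1 : Matrix (Fin 1 → ι) (Fin 1 → ι) k) (fun s => x (Fin.cast _ (Fin.castAdd c s)))
      (fun s => y (Fin.cast _ (Fin.castAdd a s))) *
    F (fun s => x (Fin.cast _ (Fin.natAdd 1 s))) (fun s => y (Fin.cast _ (Fin.natAdd 1 s)))
  have e1 : (fun s : Fin c => x (Fin.cast (Nat.add_comm c 1).symm (Fin.natAdd 1 s))) =
      fun s => x s.succ := by
    funext s
    congr 1
    ext
    simp only [Fin.val_cast, Fin.val_natAdd, Fin.val_succ]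
    omega
  have e2 : (fun s : Fin a => y (Fin.cast (Nat.add_comm a 1).symm (Fin.natAdd 1 s))) =
      fun s => y s.succ := by
    funext s
    congr 1
    ext
    simp only [Fin.val_cast, Fin.val_natAdd, Fin.val_succ]
    omega
  have e3 : (fun s : Fin 1 => x (Fin.cast (Nat.add_comm c 1).symm (Fin.castAdd c s))) =
      fun _ => x 0 := by
    funext s
    congr 1
    ext
    simp
  have e4 : (fun s : Fin 1 => y (Fin.cast (Nat.add_comm a 1).symm (Fin.castAdd a s))) =
      fun _ => y 0 := by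
    funext s
    congr 1
    ext
    simp
  rw [e1, e2, e3, e4, Matrix.one_apply]
  congr 1
  refine if_congr ?_ rfl rfl
  exact ⟨fun h => by rw [h], fun h => congrFun h 0⟩

theorem lb_mem (h : Rig R q qi σ) {a c : ℕ} {F : Matrix (Fin c → ι) (Fin (a + 1) → ι) k}
    (hF : R (a + 1) c F) : R a (c + 1) (lb qi F) := by
  have h1 := h.clo.comp (cup_mem h a) (idl_mem h hF)
  convert h1 using 1
  ext u y
  obtain ⟨l, x, rfl⟩ := exists_cn u
  rw [lb_cn, Matrix.mul_apply]
  refine Eq.symm ?_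
  rw [sum_cn]
  simp only [idlM_cn]
  rw [Finset.sum_eq_single l]
  · rw [sum_cn]
    refine Finset.sum_congr rfl fun i _ => ?_
    rw [Finset.sum_eq_single y]
    · rw [cupM_cn, if_pos rfl, if_pos rfl]
      ring
    · intro y' _ hy'
      rw [cupM_cn, if_neg hy', mul_zero, mul_zero]
    · intro h
      exact absurd (Finset.mem_univ _) h
  · intro j _ hj
    refine Finset.sum_eq_zero fun w _ => ?_
    rw [if_neg (Ne.symm hj)]
    ring
  · intro h
    exact absurd (Finset.mem_univ _) h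

/-! ### Operators at given places -/

theorem opAt_sn {n N : ℕ} (e : Matrix (Fin n → ι) (Fin n → ι) k) (a : ℕ) (h : a + n ≤ N)
    (x x' : Fin N → ι) (l l' : ι) :
    opAt a (Nat.le_succ_of_le h) e (sn x l) (sn x' l') =
      opAt a h e x x' * (if l = l' then 1 else 0) := by
  have e1 : ∀ (z : Fin N → ι) (i : ι), blk a (Nat.le_succ_of_le h) (sn z i) = blk a h z := by
    intro z i
    funext t
    exact sn_castSucc z i ⟨a + t.val, by have := t.isLt; omega⟩
  simp only [opAt, Matrix.of_apply, e1]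
  by_cases h1 : ∀ i : Fin N, (i.val < a ∨ a + n ≤ i.val) → x i = x' i
  · by_cases h2 : l = l'
    · rw [if_pos h1, if_pos h2, mul_one, if_pos]
      intro i hi
      induction i using Fin.lastCases with
      | last => rw [sn_last, sn_last, h2]
      | cast i => rw [sn_castSucc, sn_castSucc]; exact h1 i hi
    · rw [if_neg h2, mul_zero, if_neg]
      intro h3
      have h4 := h3 (Fin.last N) (Or.inr h)
      rw [sn_last, sn_last] at h4
      exact h2 h4
  · rw [if_neg h1, zero_mul, if_neg]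
    intro h3
    apply h1
    intro i hi
    have h4 := h3 i.castSucc hi
    rwa [sn_castSucc, sn_castSucc] at h4

theorem opAt_cn {n N : ℕ} (e : Matrix (Fin n → ι) (Fin n → ι) k) (a : ℕ) (h : a + n ≤ N)
    (h' : a + 1 + n ≤ N + 1) (x x' : Fin N → ι) (l l' : ι) :
    opAt (a + 1) h' e (cn l x) (cn l' x') =
      (if l = l' then 1 else 0) * opAt a h e x x' := by
  have e1 : ∀ (z : Fin N → ι) (i : ι), blk (a + 1) h' (cn i z) = blk a h z := by
    intro z i
    funext t
    have h2 : (⟨a + 1 + t.val, by have := t.isLt; omega⟩ : Fin (N + 1)) =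
        Fin.succ ⟨a + t.val, by have := t.isLt; omega⟩ := by
      ext
      simp only [Fin.val_succ]
      omega
    change cn i z ⟨a + 1 + t.val, by have := t.isLt; omega⟩ = _
    rw [h2]
    rfl
  simp only [opAt, Matrix.of_apply, e1]
  by_cases h1 : ∀ i : Fin N, (i.val < a ∨ a + n ≤ i.val) → x i = x' i
  · by_cases h2 : l = l'
    · rw [if_pos h1, if_pos h2, one_mul, if_pos]
      intro i hi
      induction i using Fin.cases with
      | zero => rw [cn_zero, cn_zero, h2]
      | succ i =>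
        rw [cn_succ, cn_succ]
        refine h1 i ?_
        rw [Fin.val_succ] at hi
        omega
    · rw [if_neg h2, zero_mul, if_neg]
      intro h3
      exact h2 (h3 0 (Or.inl (Nat.succ_pos a)))
  · rw [if_neg h1, mul_zero, if_neg]
    intro h3
    apply h1
    intro i hi
    refine h3 i.succ ?_
    rw [Fin.val_succ]
    omega

theorem ub_opAt {n N m : ℕ} (e : Matrix (Fin n → ι) (Fin n → ι) k) (a : ℕ) (h : a + n ≤ N)
    (F : Matrix (Fin N → ι) (Fin (m + 1) → ι) k) :
    opAt a (Nat.le_succ_of_le h) e * ub qi F = ub qi (opAt a h e * F) := by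
  ext u y
  obtain ⟨x, l, rfl⟩ := exists_sn u
  rw [ub_sn, Matrix.mul_apply, sum_sn]
  simp only [opAt_sn e a h, ub_sn, Matrix.mul_apply, Finset.sum_mul]
  rw [Finset.sum_comm (s := Finset.univ (α := ι)) (t := Finset.univ (α := Fin N → ι))]
  refine Finset.sum_congr rfl fun x' _ => ?_
  rw [Finset.sum_eq_single l]
  · rw [if_pos rfl, mul_one, Finset.mul_sum]
    exact Finset.sum_congr rfl fun i _ => (mul_assoc _ _ _).symm
  · intro j _ hj
    rw [if_neg (Ne.symm hj), mul_zero, zero_mul]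
  · intro h
    exact absurd (Finset.mem_univ _) h

theorem lb_opAt {n N m : ℕ} (e : Matrix (Fin n → ι) (Fin n → ι) k) (a : ℕ) (h : a + n ≤ N)
    (h' : a + 1 + n ≤ N + 1) (F : Matrix (Fin N → ι) (Fin (m + 1) → ι) k) :
    opAt (a + 1) h' e * lb qi F = lb qi (opAt a h e * F) := by
  ext u y
  obtain ⟨l, x, rfl⟩ := exists_cn u
  rw [lb_cn, Matrix.mul_apply, sum_cn]
  simp only [opAt_cn e a h h', lb_cn, Matrix.mul_apply, Finset.mul_sum]
  rw [Finset.sum_eq_single l]
  · rw [Finset.sum_comm]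
    refine Finset.sum_congr rfl fun i _ => Finset.sum_congr rfl fun x' _ => ?_
    rw [if_pos rfl]
    ring
  · intro j _ hj
    refine Finset.sum_eq_zero fun x' _ => Finset.sum_eq_zero fun i _ => ?_
    rw [if_neg (Ne.symm hj)]
    ring
  · intro h
    exact absurd (Finset.mem_univ _) h

/-- the elements of the family which are fixed by the operator -/
def SS (R : ∀ a c : ℕ, Matrix (Fin c → ι) (Fin a → ι) k → Prop) (hR : Cl R)
    (h0 : ∀ a c, R a c 0) {n : ℕ} (e : Matrix (Fin n → ι) (Fin n → ι) k) (a N : ℕ)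
    (h : a + n ≤ N) (m : ℕ) : Submodule k (Matrix (Fin N → ι) (Fin m → ι) k) where
  carrier := {x | R m N x ∧ opAt a h e * x = x}
  add_mem' := by
    rintro a b ⟨ha, ha'⟩ ⟨hb, hb'⟩
    exact ⟨hR.add ha hb, by rw [Matrix.mul_add, ha', hb']⟩
  zero_mem' := ⟨h0 _ _, Matrix.mul_zero _⟩
  smul_mem' := by
    rintro c a ⟨ha, ha'⟩
    exact ⟨hR.smul c ha, by rw [Matrix.mul_smul, ha']⟩

theorem SS_ub (h : Rig R q qi σ) {n : ℕ} (e : Matrix (Fin n → ι) (Fin n → ι) k) (a N : ℕ)
    (hN : a + n ≤ N) (m : ℕ) : finrank k (SS R h.clo h.zero e a N hN (m + 1)) ≤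
      finrank k (SS R h.clo h.zero e a (N + 1) (Nat.le_succ_of_le hN) m) := by
  rw [LinearEquiv.finrank_eq (Submodule.equivMapOfInjective _ (ubL_inj h.inv m N)
    (SS R h.clo h.zero e a N hN (m + 1)))]
  refine Submodule.finrank_mono ?_
  rintro _ ⟨F, ⟨hF, hF'⟩, rfl⟩
  exact ⟨ub_mem h hF, (ub_opAt e a hN F).trans (by rw [hF']; rfl)⟩

theorem SS_lb (h : Rig R q qi σ) {n : ℕ} (e : Matrix (Fin n → ι) (Fin n → ι) k) (a N : ℕ)
    (hN : a + n ≤ N) (hN' : a + 1 + n ≤ N + 1) (m : ℕ) :
    finrank k (SS R h.clo h.zero e a N hN (m + 1)) ≤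
      finrank k (SS R h.clo h.zero e (a + 1) (N + 1) hN' m) := by
  rw [LinearEquiv.finrank_eq (Submodule.equivMapOfInjective _ (lbL_inj h.inv m N)
    (SS R h.clo h.zero e a N hN (m + 1)))]
  refine Submodule.finrank_mono ?_
  rintro _ ⟨F, ⟨hF, hF'⟩, rfl⟩
  exact ⟨lb_mem h hF, (lb_opAt e a hN hN' F).trans (by rw [hF']; rfl)⟩

theorem SS_cast (h : Rig R q qi σ) {n : ℕ} (e : Matrix (Fin n → ι) (Fin n → ι) k) (a N N' : ℕ)
    (hN : a + n ≤ N) (hN' : a + n ≤ N') (m m' : ℕ) (h1 : N = N') (h2 : m = m') :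
    finrank k (SS R h.clo h.zero e a N hN m) = finrank k (SS R h.clo h.zero e a N' hN' m') := by
  subst h1
  subst h2
  rfl

theorem SS_left (h : Rig R q qi σ) {n : ℕ} (e : Matrix (Fin n → ι) (Fin n → ι) k) :
    ∀ a b : ℕ, finrank k (SS R h.clo h.zero e 0 n (Nat.zero_add n).le (a + b)) ≤
      finrank k (SS R h.clo h.zero e a (n + a) (Nat.add_comm a n).le b)
  | 0, b => (SS_cast h e 0 n (n + 0) _ _ _ _ rfl (Nat.zero_add b)).le
  | a + 1, b => by
    have h1 := SS_left h e a (b + 1)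
    have h2 := SS_lb h e a (n + a) (Nat.add_comm a n).le (by omega) b
    rw [← SS_cast h e 0 n n (Nat.zero_add n).le (Nat.zero_add n).le (a + 1 + b) (a + (b + 1)) rfl
      (by omega)] at h1
    exact h1.trans h2

theorem SS_right (h : Rig R q qi σ) {n : ℕ} (e : Matrix (Fin n → ι) (Fin n → ι) k) (a : ℕ) :
    ∀ (b N : ℕ) (hN : a + n ≤ N) (hN' : a + n ≤ N + b),
      finrank k (SS R h.clo h.zero e a N hN b) ≤ finrank k (SS R h.clo h.zero e a (N + b) hN' 0)
  | 0, N, hN, hN' => le_rfl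
  | b + 1, N, hN, hN' => by
    have h1 := SS_ub h e a N hN b
    have h2 := SS_right h e a b (N + 1) (Nat.le_succ_of_le hN) (by omega)
    rw [SS_cast h e a (N + 1 + b) (N + (b + 1)) _ hN' 0 0 (by omega) rfl] at h2
    exact h1.trans h2

theorem opAt_zero {n : ℕ} (e : Matrix (Fin n → ι) (Fin n → ι) k) :
    opAt 0 (Nat.zero_add n).le e = e := by
  have e1 : ∀ (z : Fin n → ι), blk 0 (Nat.zero_add n).le z = z := by
    intro z
    funext t
    change z ⟨0 + t.val, _⟩ = z t
    congr 1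
    ext
    simp
  ext V W
  simp only [opAt, Matrix.of_apply, e1]
  rw [if_pos]
  intro i hi
  have := i.isLt
  omega

theorem SS_fixed (h : Rig R q qi σ) {n : ℕ} (e : Matrix (Fin n → ι) (Fin n → ι) k) (a M : ℕ)
    (ha : a + n ≤ M) : finrank k (SS R h.clo h.zero e a M ha 0) =
      finrank k (fixed (BB R h.clo h.zero M) (opAt a ha e)) := by
  rw [LinearEquiv.finrank_eq (Submodule.equivMapOfInjective _ (clL_injective M)
    (fixed (BB R h.clo h.zero M) (opAt a ha e)))]
  have h1 : (fixed (BB R h.clo h.zero M) (opAt a ha e)).map (clL k ι M) =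
      SS R h.clo h.zero e a M ha 0 := by
    refine le_antisymm ?_ ?_
    · rintro _ ⟨x, ⟨hx, hx'⟩, rfl⟩
      refine ⟨hx, ?_⟩
      ext u w
      exact congrFun hx' u
    · rintro F ⟨hF, hF'⟩
      obtain ⟨x, rfl⟩ := exists_cl F
      refine ⟨x, ⟨hF, ?_⟩, rfl⟩
      funext u
      exact congrFun (congrFun hF' u) Fin.elim0
  rw [h1]

/-- BEND: the elements `x` with `e x = x` are bent to classes which are fixed by `1 ⊗ e ⊗ 1`. -/
theorem finrank_LE_le (h : Rig R q qi σ) {n : ℕ} (e : Matrix (Fin n → ι) (Fin n → ι) k)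
    (m M : ℕ) (hM : M = m + n) (a : ℕ) (ha : a + n ≤ M) :
    finrank k (LE R h.clo h.zero e m) ≤
      finrank k (fixed (BB R h.clo h.zero M) (opAt a ha e)) := by
  obtain ⟨b, rfl⟩ : ∃ b, m = a + b := ⟨m - a, by omega⟩
  have h1 : LE R h.clo h.zero e (a + b) =
      SS R h.clo h.zero e 0 n (Nat.zero_add n).le (a + b) := by
    ext x
    change (R (a + b) n x ∧ e * x = x) ↔ (R (a + b) n x ∧ opAt 0 _ e * x = x)
    rw [opAt_zero]
  rw [h1]
  refine (SS_left h e a b).trans ((SS_right h e a b (n + a) (by omega) (by omega)).trans ?_)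
  rw [SS_cast h e a (n + a + b) M _ ha 0 0 (by omega) rfl, SS_fixed h]

theorem opAt_mem (h : Rig R q qi σ) {n : ℕ} {e : Matrix (Fin n → ι) (Fin n → ι) k}
    (he : R n n e) (M : ℕ) (a : ℕ) (ha : a + n ≤ M) : R M M (opAt a ha e) := by
  obtain ⟨b, rfl⟩ : ∃ b, M = a + n + b := ⟨M - (a + n), by omega⟩
  have h1 : R (a + n + b) (a + n + b) (ex (ex (1 : Matrix (Fin a → ι) (Fin a → ι) k) e)
      (1 : Matrix (Fin b → ι) (Fin b → ι) k)) := h.clo.prod (h.clo.prod (h.idn a) he) (h.idn b)
  convert h1 using 1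
  ext V W
  change opAt a ha e V W = (1 : Matrix (Fin a → ι) (Fin a → ι) k)
    (fun i => V (Fin.castAdd b (Fin.castAdd n i))) (fun i => W (Fin.castAdd b (Fin.castAdd n i))) *
    e (fun i => V (Fin.castAdd b (Fin.natAdd a i))) (fun i => W (Fin.castAdd b (Fin.natAdd a i))) *
    (1 : Matrix (Fin b → ι) (Fin b → ι) k)
    (fun i => V (Fin.natAdd (a + n) i)) (fun i => W (Fin.natAdd (a + n) i))
  rw [Matrix.one_apply, Matrix.one_apply]
  have e1 : ∀ z : Fin (a + n + b) → ι, blk a ha z =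
      fun i => z (Fin.castAdd b (Fin.natAdd a i)) := fun z => rfl
  simp only [opAt, Matrix.of_apply, e1]
  by_cases h2 : (fun i => V (Fin.castAdd b (Fin.castAdd n i))) =
      (fun i => W (Fin.castAdd b (Fin.castAdd n i)))
  · by_cases h3 : (fun i => V (Fin.natAdd (a + n) i)) = (fun i => W (Fin.natAdd (a + n) i))
    · rw [if_pos h2, if_pos h3, one_mul, mul_one, if_pos]
      intro i hi
      rcases hi with hi | hi
      · exact congrFun h2 ⟨i.val, hi⟩
      · have h4 : i = Fin.natAdd (a + n) ⟨i.val - (a + n), by have := i.isLt; omega⟩ := by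
          ext
          simp only [Fin.val_natAdd]
          omega
        rw [h4]
        exact congrFun h3 _
    · rw [if_neg h3, mul_zero, if_neg]
      intro h4
      apply h3
      funext i
      exact h4 _ (Or.inr (by simp only [Fin.val_natAdd]; omega))
  · rw [if_neg h2, zero_mul, zero_mul, if_neg]
    intro h4
    apply h2
    funext i
    exact h4 _ (Or.inl (by simp only [Fin.val_castAdd]; exact i.isLt))

theorem finrank_ub (h : Rig R q qi σ) (a c : ℕ) :
    finrank k (VV R h.clo h.zero (a + 1) c) ≤ finrank k (VV R h.clo h.zero a (c + 1)) := by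
  rw [LinearEquiv.finrank_eq (Submodule.equivMapOfInjective _ (ubL_inj h.inv a c)
    (VV R h.clo h.zero (a + 1) c))]
  refine Submodule.finrank_mono ?_
  rintro _ ⟨F, hF, rfl⟩
  exact ub_mem h hF

theorem finrank_ubs (h : Rig R q qi σ) : ∀ a c m : ℕ, m = a + c →
    finrank k (VV R h.clo h.zero a c) ≤ finrank k (VV R h.clo h.zero 0 m)
  | 0, c, m, hm => by
    have h1 : m = c := by omega
    rw [h1]
  | a + 1, c, m, hm => (finrank_ub h a c).trans (finrank_ubs h a (c + 1) m (by omega))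

theorem finrank_VV (h : Rig R q qi σ) (a c : ℕ) :
    finrank k (VV R h.clo h.zero a c) = finrank k (BB R h.clo h.zero (a + c)) := by
  rw [finrank_BB_VV]
  refine le_antisymm (finrank_ubs h a c _ rfl) ?_
  have h2 := finrank_bends h.clo h.zero h.idn h.inv h.form (a + c) a (Nat.le_add_right a c)
  rwa [Nat.add_sub_cancel_left] at h2

/-! ### Parity -/

theorem Rig.sq (h : Rig R q qi σ) (i : ι) : σ i * σ i = 1 := by
  rcases h.sgn i with h1 | h1 <;> rw [h1] <;> ring

theorem Rig.q_par (h : Rig R q qi σ) {i j : ι} (hij : q j i ≠ 0) : σ i = σ j := by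
  have h1 : q j i = σ i * σ j * q j i := by
    conv_lhs => rw [h.sym i j, h.sym j i]
    ring
  have h2 : σ i * σ j = 1 := by
    have h3 : (σ i * σ j - 1) * q j i = 0 := by
      rw [sub_mul, one_mul, ← h1, sub_self]
    rcases mul_eq_zero.mp h3 with h4 | h4
    · exact sub_eq_zero.mp h4
    · exact absurd h4 hij
  calc σ i = σ i * (σ j * σ j) := by rw [h.sq, mul_one]
    _ = σ i * σ j * σ j := by ring
    _ = σ j := by rw [h2, one_mul]

theorem sn_prod {c : ℕ} (x : Fin c → ι) (i : ι) : ∏ s, σ (sn x i s) = (∏ s, σ (x s)) * σ i := by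
  rw [Fin.prod_univ_castSucc]
  simp only [sn_castSucc, sn_last]

theorem par_all' (h : Rig R q qi σ) : ∀ (a c : ℕ) (F : Matrix (Fin c → ι) (Fin a → ι) k),
    R a c F → ∀ (V : Fin c → ι) (W : Fin a → ι), F V W ≠ 0 → ∏ i, σ (V i) = ∏ i, σ (W i) := by
  intro a
  induction a with
  | zero =>
    intro c F hF V W hVW
    obtain ⟨x, rfl⟩ := exists_cl F
    rw [h.par c x hF V hVW, Finset.univ_eq_empty, Finset.prod_empty]
  | succ a ih =>
    intro c F hF V W hVW
    obtain ⟨y, i, rfl⟩ := exists_sn W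
    have hq' : qi * q = 1 := mul_eq_one_comm.mp h.inv
    obtain ⟨l, hl, hl'⟩ : ∃ l, ub qi F (sn V l) y ≠ 0 ∧ σ i = σ l := by
      by_contra hcon
      push Not at hcon
      apply hVW
      have h1 : (fun j => F V (sn y j)) = (fun l => ub qi F (sn V l) y) ᵥ* q := by
        have h2 : (fun l => ub qi F (sn V l) y) = (fun j => F V (sn y j)) ᵥ* qi := by
          funext l
          rw [ub_sn]
          rfl
        rw [h2, vecMul_vecMul, hq', vecMul_one]
      have h3 := congrFun h1 i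
      refine h3.trans (Finset.sum_eq_zero fun l _ => ?_)
      by_cases h4 : ub qi F (sn V l) y = 0
      · exact mul_eq_zero_of_left h4 _
      · have h5 : q l i = 0 := by
          by_contra h6
          exact hcon l h4 (h.q_par h6)
        exact mul_eq_zero_of_right _ h5
    have h6 := ih (c + 1) (ub qi F) (ub_mem h hF) (sn V l) y hl
    rw [sn_prod] at h6
    rw [sn_prod, ← h6, hl', mul_assoc, h.sq, mul_one]

theorem par_all (h : Rig R q qi σ) {a c : ℕ} {F : Matrix (Fin c → ι) (Fin a → ι) k}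
    (hF : R a c F) (V : Fin c → ι) (W : Fin a → ι) (hVW : F V W ≠ 0) :
    ∏ i, σ (V i) = ∏ i, σ (W i) :=
  par_all' h a c F hF V W hVW

/-! ### The trace -/

theorem Rig.qi_sym (h : Rig R q qi σ) (i l : ι) : qi i l = σ i * qi l i := by
  have hq' : qi * q = 1 := mul_eq_one_comm.mp h.inv
  have h1 : qᵀ = Matrix.diagonal σ * q := by
    ext a b
    rw [Matrix.diagonal_mul]
    exact h.sym a b
  have h2 : qiᵀ * qᵀ = 1 := by rw [← Matrix.transpose_mul, h.inv, Matrix.transpose_one]
  have h3 : qiᵀ * Matrix.diagonal σ = qi := by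
    have h4 : qiᵀ * Matrix.diagonal σ * q = 1 := by rw [Matrix.mul_assoc, ← h1, h2]
    calc qiᵀ * Matrix.diagonal σ = qiᵀ * Matrix.diagonal σ * (q * qi) := by
          rw [h.inv, Matrix.mul_one]
      _ = qi := by rw [← Matrix.mul_assoc, h4, Matrix.one_mul]
  have h5 := congrFun (congrFun h3 l) i
  rw [Matrix.mul_diagonal, Matrix.transpose_apply] at h5
  -- `qi i l * σ i = qi l i`
  rw [← h5]
  calc qi i l = σ i * σ i * qi i l := by rw [h.sq, one_mul]
    _ = σ i * (qi i l * σ i) := by ring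

theorem trace_ub (h : Rig R q qi σ) {a c : ℕ} (F : Matrix (Fin c → ι) (Fin (a + 1) → ι) k)
    (G : Matrix (Fin a → ι) (Fin (c + 1) → ι) k) :
    trace (Matrix.diagonal (fun V : Fin a → ι => ∏ i, σ (V i)) * (G * ub qi F)) =
      trace (Matrix.diagonal (fun V : Fin (a + 1) → ι => ∏ i, σ (V i)) * (ub qi G * F)) := by
  simp only [Matrix.trace, Matrix.diag_apply, Matrix.diagonal_mul]
  simp only [Matrix.mul_apply]
  rw [sum_sn]
  refine Finset.sum_congr rfl fun y _ => ?_
  simp only [sn_prod, ub_sn]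
  rw [sum_sn]
  simp only [ub_sn]
  simp only [Finset.mul_sum, Finset.sum_mul]
  have h1 : ∀ x : Fin c → ι, ∀ l i : ι,
      (∏ s, σ (y s)) * (G y (sn x l) * (F x (sn y i) * qi i l)) =
        (∏ s, σ (y s)) * σ i * (G y (sn x l) * qi l i * F x (sn y i)) := by
    intro x l i
    rw [h.qi_sym i l]
    ring
  simp only [h1]
  calc ∑ x : Fin c → ι, ∑ l : ι, ∑ i : ι,
        (∏ s, σ (y s)) * σ i * (G y (sn x l) * qi l i * F x (sn y i)) =
      ∑ x : Fin c → ι, ∑ i : ι, ∑ l : ι,
        (∏ s, σ (y s)) * σ i * (G y (sn x l) * qi l i * F x (sn y i)) :=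
        Finset.sum_congr rfl fun x _ => Finset.sum_comm
    _ = _ := Finset.sum_comm

theorem trace_nd' (h : Rig R q qi σ) (hnd : Nondeg R) : ∀ (a c : ℕ)
    (F : Matrix (Fin c → ι) (Fin a → ι) k), R a c F →
    (∀ G : Matrix (Fin a → ι) (Fin c → ι) k, R c a G →
      trace (Matrix.diagonal (fun V : Fin a → ι => ∏ i, σ (V i)) * (G * F)) = 0) → F = 0 := by
  intro a
  induction a with
  | zero =>
    intro c F hF h0
    obtain ⟨x, rfl⟩ := exists_cl F
    have h1 : x = 0 := by
      refine hnd c x hF fun φ hφ => ?_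
      have h2 := h0 (ro φ) hφ
      simp only [Matrix.trace, Matrix.diag_apply, Matrix.diagonal_mul, ro_mul_cl,
        Finset.univ_eq_empty, Finset.prod_empty, one_mul] at h2
      rw [Fintype.sum_unique] at h2
      exact h2
    rw [h1]
    rfl
  | succ a ih =>
    intro c F hF h0
    refine ub_inj h.inv (ih (c + 1) (ub qi F) (ub_mem h hF) fun G hG => ?_)
    rw [trace_ub h]
    exact h0 _ (ub_mem h hG)

theorem trace_nd (h : Rig R q qi σ) (hnd : Nondeg R) {a c : ℕ}
    {F : Matrix (Fin c → ι) (Fin a → ι) k} (hF : R a c F)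
    (h0 : ∀ G : Matrix (Fin a → ι) (Fin c → ι) k, R c a G →
      trace (Matrix.diagonal (fun V : Fin a → ι => ∏ i, σ (V i)) * (G * F)) = 0) : F = 0 :=
  trace_nd' h hnd a c F hF h0

end family

end

end Pool.Agent.K4H10.QZ
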